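import Pool.Agent.Lib.MP_85340c_ag.Defs

/-!
# A criterion for a hypersurface section not to be F-rational
-/

namespace MP85340c

namespace AllP

open IsLocalRing

theorem pow_mem_bracketPow' {A : Type*} [CommRing A] {I : Ideal A} {z : A} (hz : z ∈ I) (q : ℕ) :
    z ^ q ∈ bracketPow I q := Ideal.subset_span ⟨z, hz, rfl⟩

/-- `(I^{[q]})^{[q']} ≤ I^{[qq']}` for powers of the characteristic -/
theorem bracketPow_bracketPow_le {A : Type*} [CommRing A] (p : ℕ) [Fact p.Prime] [CharP A p]
    (I : Ideal A) (m n : ℕ) {z : A} (hz : z ∈ bracketPow I (p ^ m)) :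
    z ^ (p ^ n) ∈ bracketPow I (p ^ (m + n)) := by
  refine Submodule.span_induction (p := fun z _ => z ^ (p ^ n) ∈ bracketPow I (p ^ (m + n)))
    ?_ ?_ ?_ ?_ hz
  · rintro _ ⟨y, hy, rfl⟩
    simp only
    rw [← pow_mul, ← pow_add]
    exact pow_mem_bracketPow' hy _
  · have : p ^ n ≠ 0 := pow_ne_zero _ (Fact.out : p.Prime).ne_zero
    rw [zero_pow this]
    exact Ideal.zero_mem _
  · intro x y _ _ hx hy
    rw [add_pow_char_pow]
    exact add_mem hx hy
  · intro r x _ hx
    rw [smul_eq_mul, mul_pow]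
    exact Ideal.mul_mem_left _ _ hx

theorem not_isFRational_of (p : ℕ) [hpp : Fact p.Prime] {R k : Type*} [CommRing R]
    [IsNoetherianRing R] [CharP R p] [Field k] (EV : R →+* k) (hsurj : Function.Surjective EV)
    {h A C w : R} (hEVh : EV h = 0) (hEVA : EV A = 0) (hEVC : EV C = 0)
    (hheight : 3 ≤ (RingHom.ker EV).height)
    (hradR : ∀ r, EV r = 0 → r ∈ (Ideal.span {A, C, h}).radical)
    (hw : w ^ p ∈ Ideal.span {A ^ p, C ^ p, h})
    (hnot : ∀ s, s * w ∈ Ideal.span {A, C, h} → EV s = 0) :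
    ¬ IsFRational p (R ⧸ Ideal.span {h}) := by
  intro hF
  -- the maximal ideals
  have hle : ∀ z ∈ Ideal.span {h}, EV z = 0 := by
    intro z hz
    rw [Ideal.mem_span_singleton'] at hz
    obtain ⟨y, rfl⟩ := hz
    rw [map_mul, hEVh, mul_zero]
  set EVB : (R ⧸ Ideal.span {h}) →+* k := Ideal.Quotient.lift _ EV hle with hEVB
  have hEVBmk : ∀ z, EVB (Ideal.Quotient.mk _ z) = EV z := fun z => rfl
  have hsurjB : Function.Surjective EVB := by
    intro r
    obtain ⟨z, hz⟩ := hsurj r
    exact ⟨Ideal.Quotient.mk _ z, hz⟩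
  have hmax0 : (RingHom.ker EV).IsMaximal := RingHom.ker_isMaximal_of_surjective _ hsurj
  have hprime0 : (RingHom.ker EV).IsPrime := hmax0.isPrime
  have hmax : (RingHom.ker EVB).IsMaximal := RingHom.ker_isMaximal_of_surjective _ hsurjB
  set M : Ideal (R ⧸ Ideal.span {h}) := RingHom.ker EVB with hM
  have hMprime : M.IsPrime := hmax.isPrime
  have hmap : (RingHom.ker EV).map (Ideal.Quotient.mk (Ideal.span {h})) = M := by
    refine le_antisymm ?_ ?_
    · rw [Ideal.map_le_iff_le_comap]
      intro z hz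
      exact hz
    · intro z hz
      obtain ⟨z', rfl⟩ := Ideal.Quotient.mk_surjective z
      exact Ideal.mem_map_of_mem _ hz
  have hh1 : h ∈ RingHom.ker EV := hEVh
  have hMge : 2 ≤ M.height := by
    have h3 := Ideal.height_le_height_add_one_of_mem hh1
    rw [hmap] at h3
    have h4 : (2 : ℕ∞) + 1 ≤ M.height + 1 := by
      calc (2 : ℕ∞) + 1 = 3 := by norm_num
        _ ≤ _ := hheight.trans h3
    exact (ENat.add_le_add_iff_right ENat.one_ne_top).1 h4
  -- the local ring
  set L := Localization.AtPrime M with hL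
  let π : R →+* L := (algebraMap (R ⧸ Ideal.span {h}) L).comp (Ideal.Quotient.mk _)
  have hπh : π h = 0 := by
    change algebraMap (R ⧸ Ideal.span {h}) L (Ideal.Quotient.mk _ h) = 0
    rw [Ideal.Quotient.eq_zero_iff_mem.2 (Ideal.mem_span_singleton_self h), map_zero]
  have hcharL : CharP L p := by
    refine (CharP.charP_iff_prime_eq_zero hpp.out).2 ?_
    have h3 : π (p : R) = 0 := by rw [CharP.cast_eq_zero, map_zero]
    rwa [map_natCast] at h3
  set J : Ideal L := Ideal.span {π A, π C} with hJ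
  have haJ : π A ∈ J := Ideal.subset_span (by simp)
  have hcJ : π C ∈ J := Ideal.subset_span (by simp)
  have hmaxmem : ∀ z : R, EV z = 0 → π z ∈ maximalIdeal L := by
    intro z hz
    have : Ideal.Quotient.mk (Ideal.span {h}) z ∈ M := hz
    exact (IsLocalization.AtPrime.to_map_mem_maximal_iff L M _).2 this
  have hamax : π A ∈ maximalIdeal L := hmaxmem _ hEVA
  have hcmax : π C ∈ maximalIdeal L := hmaxmem _ hEVC
  have hJle : J ≤ maximalIdeal L := by
    rw [hJ, Ideal.span_le]
    intro z hz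
    rcases hz with rfl | hz
    · exact hamax
    · rw [Set.mem_singleton_iff] at hz
      rw [hz]; exact hcmax
  -- radical
  have hspan : ∀ z ∈ Ideal.span {A, C, h}, π z ∈ J := by
    intro z hz
    have e1 : Ideal.span {A, C, h} ≤ J.comap π := by
      rw [Ideal.span_le]
      rintro s (rfl | rfl | hs)
      · exact haJ
      · exact hcJ
      · rw [Set.mem_singleton_iff] at hs
        rw [hs, SetLike.mem_coe, Ideal.mem_comap, hπh]
        exact J.zero_mem
    exact e1 hz
  have hrad : J.radical = maximalIdeal L := by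
    refine le_antisymm ((Ideal.IsPrime.radical_le_iff inferInstance).2 hJle) ?_
    have e1 : M.map (algebraMap (R ⧸ Ideal.span {h}) L) = maximalIdeal L :=
      Localization.AtPrime.map_eq_maximalIdeal
    rw [← e1, Ideal.map_le_iff_le_comap]
    intro z' hz'
    obtain ⟨z, rfl⟩ := Ideal.Quotient.mk_surjective z'
    change π z ∈ J.radical
    obtain ⟨n, hn⟩ := hradR z hz'
    refine ⟨n, ?_⟩
    rw [← map_pow]
    exact hspan _ hn
  -- dimension
  have hnoethL : IsNoetherianRing L := IsLocalization.isNoetherianRing M.primeCompl _ inferInstance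
  have hdim : ringKrullDim L = (2 : ℕ) := by
    have e1 := IsLocalization.AtPrime.ringKrullDim_eq_height M L
    have e2 : (maximalIdeal L).height ≤ 2 := by
      have h2 : maximalIdeal L ∈ J.minimalPrimes := by
        refine ⟨⟨inferInstance, hJle⟩, ?_⟩
        rintro Q ⟨hQ, hQ2⟩ _
        rw [← hrad]
        exact (hQ.radical_le_iff).2 hQ2
      classical
      have h3 : J = Ideal.span (({π A, π C} : Finset L) : Set L) := by
        rw [hJ]; congr 1; simp
      rw [h3] at h2
      refine (Ideal.height_le_card_of_mem_minimalPrimes_span_finset h2).trans ?_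
      exact_mod_cast Finset.card_le_two
    have e3 := maximalIdeal_height_eq_ringKrullDim (R := L)
    have e4 : (maximalIdeal L).height = 2 := by
      refine le_antisymm e2 ?_
      have e5 : ((maximalIdeal L).height : WithBot ℕ∞) = M.height := e3.trans e1
      rw [WithBot.coe_inj.1 e5]
      exact hMge
    rw [← e3, e4]
    rfl
  -- parameter ideal
  have hpar : IsParameterIdeal J := by
    refine ⟨2, ![π A, π C], hdim, ?_, hrad⟩
    rw [hJ]
    congr 1
    simp [Matrix.range_cons, Set.pair_comm]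
  -- tight closure
  have hwp : π w ^ p ∈ bracketPow J (p ^ 1) := by
    rw [pow_one, ← map_pow]
    have e1 : Ideal.span {A ^ p, C ^ p, h} ≤ (bracketPow J p).comap π := by
      rw [Ideal.span_le]
      rintro s (rfl | rfl | hs)
      · rw [SetLike.mem_coe, Ideal.mem_comap, map_pow]
        exact pow_mem_bracketPow' haJ p
      · rw [SetLike.mem_coe, Ideal.mem_comap, map_pow]
        exact pow_mem_bracketPow' hcJ p
      · rw [Set.mem_singleton_iff] at hs
        rw [hs, SetLike.mem_coe, Ideal.mem_comap, hπh]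
        exact Ideal.zero_mem _
    exact e1 hw
  have htc : π w ∈ tightClosure p J := by
    refine ⟨1, ?_, 1, ?_⟩
    · intro P hP h1P
      exact hP.1.1.ne_top ((Ideal.eq_top_iff_one P).2 h1P)
    · intro e he
      obtain ⟨m, rfl⟩ : ∃ m, e = 1 + m := ⟨e - 1, by omega⟩
      have h5 := bracketPow_bracketPow_le p J 1 m hwp
      rw [one_mul, pow_add, pow_one, pow_mul]
      rwa [pow_add, pow_one] at h5
  have hFL := hF M J hpar
  rw [hFL] at htc
  -- not in J
  have hJmap : J = (Ideal.span {Ideal.Quotient.mk (Ideal.span {h}) A,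
      Ideal.Quotient.mk (Ideal.span {h}) C}).map
        (algebraMap (R ⧸ Ideal.span {h}) L) := by
    rw [Ideal.map_span, Set.image_insert_eq, Set.image_singleton]
    rfl
  have htc' : π w ∈ J := htc
  rw [hJmap, IsLocalization.mem_map_algebraMap_iff M.primeCompl L] at htc'
  obtain ⟨⟨⟨i, hi⟩, s⟩, hs⟩ := htc'
  change algebraMap (R ⧸ Ideal.span {h}) L (Ideal.Quotient.mk _ w) *
    algebraMap (R ⧸ Ideal.span {h}) L (s : R ⧸ Ideal.span {h}) =
      algebraMap (R ⧸ Ideal.span {h}) L i at hs
  rw [← map_mul] at hs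
  obtain ⟨s', hs'⟩ := IsLocalization.exists_of_eq (M := M.primeCompl) hs
  obtain ⟨s1, hs1⟩ := Ideal.Quotient.mk_surjective (s : R ⧸ Ideal.span {h})
  obtain ⟨s2, hs2⟩ := Ideal.Quotient.mk_surjective (s' : R ⧸ Ideal.span {h})
  obtain ⟨q1, q2, hpq⟩ := Ideal.mem_span_pair.1 hi
  obtain ⟨q1', rfl⟩ := Ideal.Quotient.mk_surjective q1
  obtain ⟨q2', rfl⟩ := Ideal.Quotient.mk_surjective q2
  have e1 : Ideal.Quotient.mk (Ideal.span {h}) (s2 * (w * s1) -
      s2 * (q1' * A + q2' * C)) = 0 := by
    rw [map_sub, map_mul, map_mul, map_mul, map_add, map_mul, map_mul, hs1, hs2, hs', ← hpq]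
    ring
  rw [Ideal.Quotient.eq_zero_iff_mem, Ideal.mem_span_singleton'] at e1
  obtain ⟨v, hv⟩ := e1
  have e2 : (s2 * s1) * w ∈ Ideal.span {A, C, h} := by
    rw [Ideal.mem_span_insert]
    refine ⟨s2 * q1', s2 * q2' * C + v * h, Ideal.mem_span_pair.2 ⟨_, _, rfl⟩, ?_⟩
    linear_combination (-1 : R) * hv
  have e3 : EV (s2 * s1) = 0 := hnot _ e2
  rw [map_mul] at e3
  rcases mul_eq_zero.1 e3 with e4 | e4
  · refine s'.2 ?_
    rw [← hs2]
    exact e4
  · refine s.2 ?_
    rw [← hs1]
    exact e4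

end AllP

end MP85340c
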