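import Pool.Agent.Lib.MP_85340c_ag.Defs

/-!
# Coefficient extraction on polynomial rings, Cartier maps, and tight closure

For `d : Fin 3 → ℕ` and a residue `β`, `ext d β` keeps the monomials `X ^ n` with
`n i % d i = β i` and replaces them by `X ^ (n / d)`.
-/

namespace MP85340c

namespace AllP

open MvPolynomial

variable {k : Type*} [Field k]

/-- `n / d` -/
noncomputable def quo (d : Fin 3 → ℕ) (n : Fin 3 →₀ ℕ) : Fin 3 →₀ ℕ :=
  Finsupp.equivFunOnFinite.symm fun i => n i / d i

/-- `d * m` -/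
noncomputable def scl (d : Fin 3 → ℕ) (m : Fin 3 →₀ ℕ) : Fin 3 →₀ ℕ :=
  Finsupp.equivFunOnFinite.symm fun i => d i * m i

@[simp] theorem quo_apply (d : Fin 3 → ℕ) (n : Fin 3 →₀ ℕ) (i : Fin 3) :
    quo d n i = n i / d i := rfl

@[simp] theorem scl_apply (d : Fin 3 → ℕ) (n : Fin 3 →₀ ℕ) (i : Fin 3) :
    scl d n i = d i * n i := rfl

open Classical in
/-- coefficient extraction -/
noncomputable def ext (d : Fin 3 → ℕ) (β : Fin 3 → ℕ) :
    MvPolynomial (Fin 3) k →ₗ[k] MvPolynomial (Fin 3) k :=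
  (basisMonomials (Fin 3) k).constr k fun n =>
    if ∀ i, n i % d i = β i then monomial (quo d n) 1 else 0

theorem ext_monomial (d β : Fin 3 → ℕ) (n : Fin 3 →₀ ℕ) (c : k) [Decidable (∀ i, n i % d i = β i)] :
    ext d β (monomial n c) = if ∀ i, n i % d i = β i then monomial (quo d n) c else 0 := by
  classical
  have h1 : monomial n c = c • (basisMonomials (Fin 3) k n : MvPolynomial (Fin 3) k) := by
    rw [coe_basisMonomials, smul_monomial, smul_eq_mul, mul_one]
  rw [h1, map_smul, ext, Module.Basis.constr_basis]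
  split_ifs
  · rw [smul_monomial, smul_eq_mul, mul_one]
  · rw [smul_zero]

theorem ext_scl_mul {d : Fin 3 → ℕ} (hd : ∀ i, 0 < d i) (β : Fin 3 → ℕ) (m : Fin 3 →₀ ℕ) (c : k)
    (f : MvPolynomial (Fin 3) k) :
    ext d β (monomial (scl d m) c * f) = monomial m c * ext d β f := by
  classical
  induction f using MvPolynomial.induction_on' with
  | monomial n a =>
    rw [monomial_mul, ext_monomial, ext_monomial]
    have h1 : ∀ i, (scl d m + n) i % d i = n i % d i := by
      intro i
      rw [Finsupp.add_apply, scl_apply, Nat.mul_add_mod]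
    have h2 : quo d (scl d m + n) = m + quo d n := by
      ext i
      rw [quo_apply, Finsupp.add_apply, Finsupp.add_apply, scl_apply, quo_apply,
        Nat.mul_add_div (hd i)]
    simp only [h1, h2]
    split_ifs
    · rw [monomial_mul]
    · rw [mul_zero]
  | add p q hp hq =>
    rw [mul_add, map_add, map_add, hp, hq, mul_add]

theorem ext_sum_mul {d : Fin 3 → ℕ} (β : Fin 3 → ℕ) {ι : Type*} (s : Finset ι)
    (f : ι → MvPolynomial (Fin 3) k) : ext d β (∑ i ∈ s, f i) = ∑ i ∈ s, ext d β (f i) :=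
  map_sum _ _ _

section Cartier

variable (p : ℕ) [hp : Fact p.Prime] [CharP k p] [PerfectRing k p]

/-- The Cartier maps. -/
noncomputable def cart (e : ℕ) (β : Fin 3 → ℕ) (f : MvPolynomial (Fin 3) k) :
    MvPolynomial (Fin 3) k :=
  MvPolynomial.map ((iterateFrobeniusEquiv k p e).symm : k →+* k) (ext (fun _ => p ^ e) β f)

theorem cart_add (e : ℕ) (β : Fin 3 → ℕ) (f g : MvPolynomial (Fin 3) k) :
    cart p e β (f + g) = cart p e β f + cart p e β g := by
  rw [cart, map_add, map_add]; rfl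

theorem cart_zero (e : ℕ) (β : Fin 3 → ℕ) : cart p e β (0 : MvPolynomial (Fin 3) k) = 0 := by
  rw [cart, map_zero, map_zero]

theorem cart_pow_mul (e : ℕ) (β : Fin 3 → ℕ) (f g : MvPolynomial (Fin 3) k) :
    cart p e β (f ^ p ^ e * g) = f * cart p e β g := by
  have hq : 0 < p ^ e := pow_pos hp.out.pos e
  induction f using MvPolynomial.induction_on' with
  | monomial m c =>
    have h1 : (monomial m c : MvPolynomial (Fin 3) k) ^ p ^ e
        = monomial (scl (fun _ => p ^ e) m) (c ^ p ^ e) := by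
      rw [monomial_pow]
      congr 2
      ext i
      simp
    rw [h1, cart, ext_scl_mul (fun _ => hq), map_mul, cart, map_monomial]
    congr 2
    change (iterateFrobeniusEquiv k p e).symm (c ^ p ^ e) = c
    rw [RingEquiv.symm_apply_eq, iterateFrobeniusEquiv_apply, iterateFrobenius_def]
  | add f f' hf hf' =>
    rw [add_pow_char_pow, add_mul, cart_add, hf, hf', add_mul]

theorem exists_cart_eq_C {c : MvPolynomial (Fin 3) k} (hc : c ≠ 0) :
    ∃ E : ℕ, ∀ e, E ≤ e → ∃ β, ∃ u : k, u ≠ 0 ∧ cart p e β c = C u := by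
  classical
  obtain ⟨n₀, hn₀⟩ := MvPolynomial.support_nonempty.2 hc
  refine ⟨c.totalDegree + 1, fun e he => ?_⟩
  have hlt : ∀ n ∈ c.support, ∀ i, n i < p ^ e := by
    intro n hn i
    have h1 : n i ≤ c.totalDegree := by
      refine le_trans ?_ (MvPolynomial.le_totalDegree hn)
      rw [Finsupp.sum_fintype _ _ (fun _ => rfl)]
      exact Finset.single_le_sum (f := fun i => n i) (fun _ _ => Nat.zero_le _)
        (Finset.mem_univ i)
    have h2 : e < p ^ e := Nat.lt_pow_self hp.out.one_lt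
    omega
  refine ⟨fun i => n₀ i, (iterateFrobeniusEquiv k p e).symm (coeff n₀ c), ?_, ?_⟩
  · rw [Ne, RingEquiv.symm_apply_eq, map_zero]
    exact MvPolynomial.mem_support_iff.1 hn₀
  · have h1 : ext (fun _ => p ^ e) (fun i => n₀ i) c = C (coeff n₀ c) := by
      conv_lhs => rw [c.as_sum]
      rw [map_sum, Finset.sum_eq_single n₀]
      · rw [ext_monomial, if_pos]
        · have h0 : quo (fun _ => p ^ e) n₀ = 0 := by
            ext i
            rw [quo_apply, Finsupp.coe_zero, Pi.zero_apply]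
            exact Nat.div_eq_of_lt (hlt n₀ hn₀ i)
          rw [h0, C_apply]
        · intro i
          exact Nat.mod_eq_of_lt (hlt n₀ hn₀ i)
      · intro n hn hne
        rw [ext_monomial, if_neg]
        intro h
        apply hne
        ext i
        rw [← h i, Nat.mod_eq_of_lt (hlt n hn i)]
      · intro h
        exact absurd hn₀ h
    rw [cart, h1, map_C]
    rfl

theorem cart_mem {I : Ideal (MvPolynomial (Fin 3) k)} {R : Type*} [CommRing R]
    (j : R →+* MvPolynomial (Fin 3) k) {J : Ideal R} (hJ : J ≤ I.comap j) (e : ℕ) (β : Fin 3 → ℕ)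
    {v : R} (hv : v ∈ bracketPow J (p ^ e)) : cart p e β (j v) ∈ I := by
  have key : ∀ r : R, cart p e β (j (r * v)) ∈ I := by
    refine Submodule.span_induction (p := fun v _ => ∀ r : R, cart p e β (j (r * v)) ∈ I)
      ?_ ?_ ?_ ?_ hv
    · rintro _ ⟨z, hz, rfl⟩ r
      simp only [map_pow, map_mul]
      rw [mul_comm, cart_pow_mul]
      exact Ideal.mul_mem_right _ _ (hJ hz)
    · intro r
      rw [mul_zero, map_zero, cart_zero]
      exact I.zero_mem
    · intro x y _ _ hx hy r
      rw [mul_add, map_add, cart_add]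
      exact I.add_mem (hx r) (hy r)
    · intro r x _ hx r'
      rw [smul_eq_mul, ← mul_assoc]
      exact hx _
  simpa using key 1

/-- Tight closure of ideals that are contracted from the polynomial ring: the form needed for
local rings. -/
theorem exists_mul_mem {R : Type*} [CommRing R] (j : R →+* MvPolynomial (Fin 3) k)
    (hj : Function.Injective j) (J : Ideal R) (hJ : (J.map j).comap j ≤ J)
    (P : Ideal R) [P.IsPrime] {c w : R} (hc : c ≠ 0)
    (hw : ∃ N : ℕ, ∀ e, N ≤ e → ∃ s ∉ P, s * (c * w ^ p ^ e) ∈ bracketPow J (p ^ e)) :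
    ∃ s ∉ P, s * w ∈ J := by
  obtain ⟨N, hN⟩ := hw
  have hjc : j c ≠ 0 := fun h => hc (hj (by rw [h, map_zero]))
  obtain ⟨E, hE⟩ := exists_cart_eq_C p hjc
  obtain ⟨s, hs, hmem⟩ := hN (max N E) (le_max_left _ _)
  obtain ⟨β, u, hu, hβ⟩ := hE (max N E) (le_max_right _ _)
  set e := max N E with he
  refine ⟨s, hs, hJ ?_⟩
  rw [Ideal.mem_comap]
  have hq : 0 < p ^ e := pow_pos hp.out.pos e
  have h1 : (s * w) ^ p ^ e * c ∈ bracketPow J (p ^ e) := by
    obtain ⟨q', hq'⟩ : ∃ q', p ^ e = q' + 1 := ⟨p ^ e - 1, by omega⟩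
    have : (s * w) ^ p ^ e * c = s ^ q' * (s * (c * w ^ p ^ e)) := by
      rw [mul_pow]
      nth_rewrite 1 [hq']
      rw [pow_succ]
      ring
    rw [this]
    exact Ideal.mul_mem_left _ _ hmem
  have h2 := cart_mem p (I := J.map j) j Ideal.le_comap_map e β h1
  rw [map_mul, map_pow, cart_pow_mul, hβ] at h2
  have h3 : j (s * w) * C u * C u⁻¹ ∈ J.map j := Ideal.mul_mem_right _ _ h2
  rwa [mul_assoc, ← C_mul, mul_inv_cancel₀ hu, C_1, mul_one] at h3

end Cartier

end AllP

end MP85340c
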