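import Pool.Agent.Lib.MP_85340c_ag.AllP.Ring2

/-!
# Hyperplane sections of the example, in all characteristics: algebra
-/

namespace MP85340c

namespace AllP

open MvPolynomial Finset

variable {k : Type*} [Field k]

variable {p : ℕ}

/-! ## The ideal generated by `x ^ (2p)` and `y ^ (2p)` -/

variable (p) in
/-- the elements of the ideal `(x ^ (2p), y ^ (2p))` of the ring -/
def Mem2 (v : (MvPolynomial (Fin 3) k)) : Prop := ∃ v₁ v₂ : (MvPolynomial (Fin 3) k), Mem p v₁ ∧ Mem p v₂ ∧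
  v = X 1 ^ p * X 1 ^ p * v₁ + X 2 ^ p * X 2 ^ p * v₂

theorem Mem2.add {v w : (MvPolynomial (Fin 3) k)} (hv : Mem2 p v) (hw : Mem2 p w) : Mem2 p (v + w) := by
  obtain ⟨v₁, v₂, h1, h2, rfl⟩ := hv
  obtain ⟨w₁, w₂, h3, h4, rfl⟩ := hw
  exact ⟨v₁ + w₁, v₂ + w₂, h1.add h3, h2.add h4, by ring⟩

theorem Mem2.iota_mul {v : (MvPolynomial (Fin 3) k)} (b : (MvPolynomial (Fin 3) k)) (hv : Mem2 p v) : Mem2 p (iota p b * v) := by
  obtain ⟨v₁, v₂, h1, h2, rfl⟩ := hv
  exact ⟨_, _, h1.iota_mul b, h2.iota_mul b, by ring⟩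

theorem Mem2.t_mul {v : (MvPolynomial (Fin 3) k)} (hv : Mem2 p v) : Mem2 p (X 0 ^ p * v) := by
  rw [← iota_X0]; exact hv.iota_mul _

theorem Mem.xx2 {v : (MvPolynomial (Fin 3) k)} (hv : Mem p v) : Mem2 p (X 1 ^ p * X 1 ^ p * v) :=
  ⟨v, 0, hv, Mem.zero, by ring⟩

theorem Mem.yy2 {v : (MvPolynomial (Fin 3) k)} (hv : Mem p v) : Mem2 p (X 2 ^ p * X 2 ^ p * v) :=
  ⟨0, v, Mem.zero, hv, by ring⟩

theorem mem2_GG [hpp : Fact p.Prime] [CharP k p] {i j : ℕ} (hi : i ≤ p) (hj : j ≤ p) :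
    Mem2 p (X 1 ^ p * G p i * (X 1 ^ p * G p j) : (MvPolynomial (Fin 3) k)) ∧
    Mem2 p (X 1 ^ p * G p i * (X 2 ^ p * G p j) : (MvPolynomial (Fin 3) k)) ∧
    Mem2 p (X 2 ^ p * G p i * (X 2 ^ p * G p j) : (MvPolynomial (Fin 3) k)) := by
  rcases le_total (i + j) p with h | h
  · have hG := G_mul_G_le (k := k) h
    have hx := mem_x_G (k := k) h
    have hy := mem_y_G (k := k) h
    refine ⟨?_, ?_, ?_⟩
    · have : (X 1 ^ p * G p i * (X 1 ^ p * G p j) : (MvPolynomial (Fin 3) k)) = X 1 ^ p * X 1 ^ p *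
          (X 1 ^ p * G p (i + j)) + X 0 ^ p * (X 1 ^ p * X 1 ^ p * (X 2 ^ p * G p (i + j))) := by
        linear_combination (X 1 ^ p * X 1 ^ p : (MvPolynomial (Fin 3) k)) * hG
      rw [this]
      exact hx.xx2.add hy.xx2.t_mul
    · have : (X 1 ^ p * G p i * (X 2 ^ p * G p j) : (MvPolynomial (Fin 3) k)) = X 1 ^ p * X 1 ^ p *
          (X 2 ^ p * G p (i + j)) + X 0 ^ p * (X 2 ^ p * X 2 ^ p * (X 1 ^ p * G p (i + j))) := by
        linear_combination (X 1 ^ p * X 2 ^ p : (MvPolynomial (Fin 3) k)) * hG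
      rw [this]
      exact hy.xx2.add hx.yy2.t_mul
    · have : (X 2 ^ p * G p i * (X 2 ^ p * G p j) : (MvPolynomial (Fin 3) k)) = X 2 ^ p * X 2 ^ p *
          (X 1 ^ p * G p (i + j)) + X 0 ^ p * (X 2 ^ p * X 2 ^ p * (X 2 ^ p * G p (i + j))) := by
        linear_combination (X 2 ^ p * X 2 ^ p : (MvPolynomial (Fin 3) k)) * hG
      rw [this]
      exact hx.yy2.add hy.yy2.t_mul
  · have hG := G_mul_G_gt (k := k) hi hj h
    have hx := mem_x_G (k := k) (p := p) (j := i + j - p) (by omega)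
    have hy := mem_y_G (k := k) (p := p) (j := i + j - p) (by omega)
    refine ⟨?_, ?_, ?_⟩
    · have : (X 1 ^ p * G p i * (X 1 ^ p * G p j) : (MvPolynomial (Fin 3) k)) =
          X 1 ^ p * X 1 ^ p * (X 1 ^ p * X 1 ^ p * (X 2 ^ p * G p (i + j - p))) +
          X 1 ^ p * X 1 ^ p * (X 2 ^ p * X 2 ^ p * (X 1 ^ p * G p (i + j - p))) := by
        linear_combination (X 1 ^ p * X 1 ^ p : (MvPolynomial (Fin 3) k)) * hG
      rw [this]
      exact hy.xx_mul.xx2.add hx.yy_mul.xx2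
    · have : (X 1 ^ p * G p i * (X 2 ^ p * G p j) : (MvPolynomial (Fin 3) k)) =
          X 1 ^ p * X 1 ^ p * (X 2 ^ p * X 2 ^ p * (X 1 ^ p * G p (i + j - p))) +
          X 1 ^ p * X 1 ^ p * (X 2 ^ p * X 2 ^ p * (X 2 ^ p * G p (i + j - p))) := by
        linear_combination (X 1 ^ p * X 2 ^ p : (MvPolynomial (Fin 3) k)) * hG
      rw [this]
      exact hx.yy_mul.xx2.add hy.yy_mul.xx2
    · have : (X 2 ^ p * G p i * (X 2 ^ p * G p j) : (MvPolynomial (Fin 3) k)) =
          X 1 ^ p * X 1 ^ p * (X 2 ^ p * X 2 ^ p * (X 2 ^ p * G p (i + j - p))) +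
          X 2 ^ p * X 2 ^ p * (X 2 ^ p * X 2 ^ p * (X 1 ^ p * G p (i + j - p))) := by
        linear_combination (X 2 ^ p * X 2 ^ p : (MvPolynomial (Fin 3) k)) * hG
      rw [this]
      exact hy.yy_mul.xx2.add hx.yy_mul.yy2

/-- the index of the basis element `1` -/
def i0 (hp : 0 < p) : Fin 2 × Fin p := (0, ⟨0, hp⟩)

theorem mem2_bas_mul_bas [hpp : Fact p.Prime] [CharP k p] {i j : Fin 2 × Fin p}
    (hi : i ≠ i0 hpp.out.pos) (hj : j ≠ i0 hpp.out.pos) :
    Mem2 p (bas p i * bas p j : (MvPolynomial (Fin 3) k)) := by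
  have hp := hpp.out.pos
  have h1 := mem_one (k := k) hp
  have hxyj : ∀ j : Fin 2 × Fin p, j ≠ i0 hpp.out.pos →
      Mem2 p (X 1 ^ p * X 2 ^ p * bas p j : (MvPolynomial (Fin 3) k)) := by
    intro j hj
    rcases bas_cases (k := k) j with ⟨h0, -⟩ | ⟨-, h⟩ | ⟨m, hm, -, -, h⟩ | ⟨m, hm, -, -, h⟩
    · exact absurd h0 hj
    · rw [h]
      convert h1.yy_mul.xx2 using 1
      ring
    · rw [h]
      convert (mem_y_G (k := k) hm.le).xx2 using 1
      ring
    · rw [h]
      convert (mem_x_G (k := k) hm.le).yy2 using 1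
      ring
  rcases bas_cases (k := k) i with ⟨h0, -⟩ | ⟨-, h⟩ | ⟨m, hm, -, -, h⟩ | ⟨m, hm, -, -, h⟩
  · exact absurd h0 hi
  · rw [h]; exact hxyj j hj
  · rcases bas_cases (k := k) j with ⟨h0, -⟩ | ⟨-, h'⟩ | ⟨m', hm', -, -, h'⟩ | ⟨m', hm', -, -, h'⟩
    · exact absurd h0 hj
    · rw [h', mul_comm]; exact hxyj i hi
    · rw [h, h']; exact (mem2_GG hm.le hm'.le).1
    · rw [h, h']; exact (mem2_GG hm.le hm'.le).2.1
  · rcases bas_cases (k := k) j with ⟨h0, -⟩ | ⟨-, h'⟩ | ⟨m', hm', -, -, h'⟩ | ⟨m', hm', -, -, h'⟩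
    · exact absurd h0 hj
    · rw [h', mul_comm]; exact hxyj i hi
    · rw [h, h', mul_comm]; exact (mem2_GG hm'.le hm.le).2.1
    · rw [h, h']; exact (mem2_GG hm.le hm'.le).2.2

variable (k p)
variable [hpp : Fact p.Prime] [CharP k p]

/-- The coordinate `a = x ^ (2p)` -/
noncomputable def aR : Rp k p := algebraMap (MvPolynomial (Fin 3) k) _ (X 1)
/-- The coordinate `c = y ^ (2p)` -/
noncomputable def cR : Rp k p := algebraMap (MvPolynomial (Fin 3) k) _ (X 2)
/-- The coordinate `t ^ p` -/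
noncomputable def tR : Rp k p := algebraMap (MvPolynomial (Fin 3) k) _ (X 0)

theorem coe_aR : (aR k p : (MvPolynomial (Fin 3) k)) = X 1 ^ p * X 1 ^ p := by
  rw [aR, coe_algebraMap_Rp, iota_X1]

theorem coe_cR : (cR k p : (MvPolynomial (Fin 3) k)) = X 2 ^ p * X 2 ^ p := by
  rw [cR, coe_algebraMap_Rp, iota_X2]

theorem coe_tR : (tR k p : (MvPolynomial (Fin 3) k)) = X 0 ^ p := by
  rw [tR, coe_algebraMap_Rp, iota_X0]

theorem basR_mul_basR {i j : Fin 2 × Fin p} (hi : i ≠ i0 hpp.out.pos)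
    (hj : j ≠ i0 hpp.out.pos) :
    ∃ v₁ v₂ : Rp k p, basR k p i * basR k p j = aR k p * v₁ + cR k p * v₂ := by
  obtain ⟨v₁, v₂, h1, h2, h3⟩ := mem2_bas_mul_bas (k := k) hi hj
  refine ⟨⟨v₁, h1⟩, ⟨v₂, h2⟩, ?_⟩
  apply Subtype.ext
  rw [MulMemClass.coe_mul, coe_basR, coe_basR, AddMemClass.coe_add, MulMemClass.coe_mul,
    MulMemClass.coe_mul, coe_aR, coe_cR]
  exact h3

theorem basR_i0 : basR k p (i0 hpp.out.pos) = 1 := by
  apply Subtype.ext
  rw [coe_basR]
  simp [bas, i0]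

/-! ## Coordinates modulo `a, c` -/

/-- reduction modulo `a, c` -/
noncomputable def red : MvPolynomial (Fin 3) k →ₐ[k] Polynomial k :=
  aeval ![Polynomial.X, 0, 0]

theorem red_X0 : red k (X 0) = Polynomial.X := by simp [red]
theorem red_X1 : red k (X 1) = 0 := by simp [red]
theorem red_X2 : red k (X 2) = 0 := by simp [red]

/-- coordinates modulo `a, c` -/
noncomputable def psi (i : Fin 2 × Fin p) (v : Rp k p) : Polynomial k := red k (crd k p i v)

theorem psi_add (i : Fin 2 × Fin p) (v w : Rp k p) :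
    psi k p i (v + w) = psi k p i v + psi k p i w := by
  rw [psi, crd, AddMemClass.coe_add, map_add, map_add]; rfl

theorem psi_zero (i : Fin 2 × Fin p) : psi k p i 0 = 0 := by
  rw [psi, crd, ZeroMemClass.coe_zero, map_zero, map_zero]

theorem psi_smul (i : Fin 2 × Fin p) (b : (MvPolynomial (Fin 3) k)) (v : Rp k p) :
    psi k p i (b • v) = red k b * psi k p i v := by
  rw [psi, crd, coe_smul_Rp, ext_iota_mul hpp.out.pos, map_mul]; rfl

theorem psi_sum {ι : Type*} (s : Finset ι) (i : Fin 2 × Fin p) (f : ι → Rp k p) :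
    psi k p i (∑ j ∈ s, f j) = ∑ j ∈ s, psi k p i (f j) := by
  classical
  induction s using Finset.induction_on with
  | empty => simp [psi_zero]
  | insert j s hj ih => rw [Finset.sum_insert hj, Finset.sum_insert hj, psi_add, ih]

theorem psi_basR (i j : Fin 2 × Fin p) : psi k p i (basR k p j) = if i = j then 1 else 0 := by
  rw [psi, crd, coe_basR, ext_bas hpp.out.pos]
  split_ifs <;> simp

theorem psi_aR_mul (i : Fin 2 × Fin p) (v : Rp k p) : psi k p i (aR k p * v) = 0 := by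
  rw [aR, ← Algebra.smul_def, psi_smul, red_X1, zero_mul]

theorem psi_cR_mul (i : Fin 2 × Fin p) (v : Rp k p) : psi k p i (cR k p * v) = 0 := by
  rw [cR, ← Algebra.smul_def, psi_smul, red_X2, zero_mul]

theorem psi_basR_mul_basR (l : Fin 2 × Fin p) {i j : Fin 2 × Fin p} (hi : i ≠ i0 hpp.out.pos)
    (hj : j ≠ i0 hpp.out.pos) : psi k p l (basR k p i * basR k p j) = 0 := by
  obtain ⟨v₁, v₂, h⟩ := basR_mul_basR k p hi hj
  rw [h, psi_add, psi_aR_mul, psi_cR_mul, add_zero]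

/-- multiplication by a basis element -/
theorem psi_mul_basR (l j : Fin 2 × Fin p) (v : Rp k p) :
    psi k p l (v * basR k p j) =
      psi k p (i0 hpp.out.pos) v * psi k p l (basR k p j) +
      (if l = i0 hpp.out.pos then 0 else
        psi k p l v * psi k p (i0 hpp.out.pos) (basR k p j)) := by
  set o := i0 hpp.out.pos with ho
  by_cases hj : j = o
  · subst hj
    rw [ho, basR_i0, mul_one, ← basR_i0 k p, psi_basR, psi_basR, if_pos rfl, mul_one]
    by_cases hl : l = i0 hpp.out.pos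
    · rw [if_pos hl, if_pos hl, hl, mul_one, add_zero]
    · rw [if_neg hl, if_neg hl, mul_zero, zero_add]
  · have h1 : psi k p o (basR k p j) = 0 := by
      rw [psi_basR, if_neg (fun h => hj h.symm)]
    rw [h1, mul_zero, ite_self, add_zero]
    have h2 : v * basR k p j = ∑ i, crd k p i v • (basR k p i * basR k p j) := by
      nth_rewrite 1 [eq_sum k p v]
      rw [Finset.sum_mul]
      refine Finset.sum_congr rfl fun i _ => ?_
      rw [smul_mul_assoc]
    rw [h2, psi_sum, Finset.sum_eq_single o]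
    · rw [psi_smul, ho, basR_i0, one_mul]
      rfl
    · intro i _ hi
      rw [psi_smul, psi_basR_mul_basR k p l hi hj, mul_zero]
    · simp

theorem psi_mul (l : Fin 2 × Fin p) (v w : Rp k p) :
    psi k p l (v * w) =
      psi k p (i0 hpp.out.pos) v * psi k p l w +
      (if l = i0 hpp.out.pos then 0 else psi k p l v * psi k p (i0 hpp.out.pos) w) := by
  have h2 : v * w = ∑ i, crd k p i w • (v * basR k p i) := by
    nth_rewrite 1 [eq_sum k p w]
    rw [Finset.mul_sum]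
    refine Finset.sum_congr rfl fun i _ => ?_
    rw [mul_smul_comm]
  have h3 : ∀ m, psi k p m w = ∑ i, red k (crd k p i w) * psi k p m (basR k p i) := by
    intro m
    nth_rewrite 1 [eq_sum k p w]
    rw [psi_sum]
    refine Finset.sum_congr rfl fun i _ => ?_
    rw [psi_smul]
  rw [h2, psi_sum]
  simp only [psi_smul, psi_mul_basR]
  rw [h3 l, h3 (i0 hpp.out.pos)]
  split_ifs with hl
  · simp only [add_zero]
    rw [Finset.mul_sum]
    refine Finset.sum_congr rfl fun i _ => ?_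
    ring
  · rw [Finset.mul_sum, Finset.mul_sum, ← Finset.sum_add_distrib]
    refine Finset.sum_congr rfl fun i _ => ?_
    ring

end AllP

end MP85340c
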