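import Pool.Agent.Lib.MP_85340c_ag.AllP.Hyper

/-!
# Hyperplane sections of the example, in all characteristics: the witness
-/

namespace MP85340c

namespace AllP

open MvPolynomial Finset

variable {k : Type*} [Field k]

variable {p : ℕ}

/-! ## The ideal generated by `x ^ (2p²)` and `y ^ (2p²)` -/

variable (p) in
/-- the elements of the ideal `(a ^ p, c ^ p)` of the ring -/
def Mem3 (v : (MvPolynomial (Fin 3) k)) : Prop := ∃ v₁ v₂ : (MvPolynomial (Fin 3) k), Mem p v₁ ∧ Mem p v₂ ∧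
  v = (X 1 ^ p * X 1 ^ p) ^ p * v₁ + (X 2 ^ p * X 2 ^ p) ^ p * v₂

theorem Mem3.zero : Mem3 p (0 : (MvPolynomial (Fin 3) k)) := ⟨0, 0, Mem.zero, Mem.zero, by ring⟩

theorem Mem3.add {v w : (MvPolynomial (Fin 3) k)} (hv : Mem3 p v) (hw : Mem3 p w) : Mem3 p (v + w) := by
  obtain ⟨v₁, v₂, h1, h2, rfl⟩ := hv
  obtain ⟨w₁, w₂, h3, h4, rfl⟩ := hw
  exact ⟨v₁ + w₁, v₂ + w₂, h1.add h3, h2.add h4, by ring⟩

theorem Mem3.sum {ι : Type*} {s : Finset ι} {f : ι → (MvPolynomial (Fin 3) k)} (h : ∀ i ∈ s, Mem3 p (f i)) :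
    Mem3 p (∑ i ∈ s, f i) :=
  Finset.sum_induction f (Mem3 p) (fun _ _ => Mem3.add) Mem3.zero h

theorem Mem3.iota_mul {v : (MvPolynomial (Fin 3) k)} (b : (MvPolynomial (Fin 3) k)) (hv : Mem3 p v) : Mem3 p (iota p b * v) := by
  obtain ⟨v₁, v₂, h1, h2, rfl⟩ := hv
  exact ⟨_, _, h1.iota_mul b, h2.iota_mul b, by ring⟩

theorem iota_C (r : k) : iota p (C r : (MvPolynomial (Fin 3) k)) = C r := by
  rw [← algebraMap_eq, AlgHom.commutes]

theorem Mem3.C_mul {v : (MvPolynomial (Fin 3) k)} (r : k) (hv : Mem3 p v) : Mem3 p (C r * v) := by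
  rw [← iota_C (p := p) r]; exact hv.iota_mul _

theorem Mem.xx3 {v : (MvPolynomial (Fin 3) k)} (hv : Mem p v) : Mem3 p ((X 1 ^ p * X 1 ^ p) ^ p * v) :=
  ⟨v, 0, hv, Mem.zero, by ring⟩

theorem Mem.yy3 {v : (MvPolynomial (Fin 3) k)} (hv : Mem p v) : Mem3 p ((X 2 ^ p * X 2 ^ p) ^ p * v) :=
  ⟨0, v, Mem.zero, hv, by ring⟩

theorem Mem.aeval_mul {v : (MvPolynomial (Fin 3) k)} (q : Polynomial k) (hv : Mem p v) :
    Mem p (Polynomial.aeval (X 0 ^ p : (MvPolynomial (Fin 3) k)) q * v) := by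
  have : (Polynomial.aeval (X 0 ^ p : (MvPolynomial (Fin 3) k)) q) = iota p (Polynomial.aeval (X 0 : (MvPolynomial (Fin 3) k)) q) := by
    rw [← Polynomial.aeval_algHom_apply, iota_X0]
  rw [this]
  exact hv.iota_mul _

theorem mem_pow_pow (hp : 0 < p) {a b : ℕ} (h : Even (a + b)) :
    Mem p ((X 1 ^ p) ^ a * (X 2 ^ p) ^ b : (MvPolynomial (Fin 3) k)) := by
  have hx : ∀ (n : ℕ) {v : (MvPolynomial (Fin 3) k)}, Mem p v → Mem p ((X 1 ^ p * X 1 ^ p) ^ n * v) := by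
    intro n
    induction n with
    | zero => intro v hv; simpa using hv
    | succ n ih => intro v hv; rw [pow_succ', mul_assoc]; exact (ih hv).xx_mul
  have hy : ∀ (n : ℕ) {v : (MvPolynomial (Fin 3) k)}, Mem p v → Mem p ((X 2 ^ p * X 2 ^ p) ^ n * v) := by
    intro n
    induction n with
    | zero => intro v hv; simpa using hv
    | succ n ih => intro v hv; rw [pow_succ', mul_assoc]; exact (ih hv).yy_mul
  rcases Nat.even_or_odd a with ⟨a', ha⟩ | ⟨a', ha⟩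
  · obtain ⟨b', hb⟩ : Even b := (Nat.even_add.1 h).1 ⟨a', ha⟩
    subst ha hb
    convert hx a' (hy b' (mem_one (k := k) hp)) using 1
    ring
  · have hb : Odd b := by
      rw [← Nat.not_even_iff_odd]
      intro hb
      have := (Nat.even_add.1 h).2 hb
      rw [ha] at this
      exact (Nat.not_even_iff_odd.2 ⟨a', rfl⟩) this
    obtain ⟨b', hb⟩ := hb
    subst ha hb
    convert hx a' (hy b' (mem_xy (k := k) hp)) using 1
    ring

variable [hpp : Fact p.Prime] [CharP k p]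

/-- the `p`-th power of the witness -/
theorem wit_pow (ε : k) :
    ∃ v : (MvPolynomial (Fin 3) k), Mem3 p v ∧
      ((X 1 ^ p * G p (p - 1) - C ε * (X 2 ^ p * G p (p - 1))) ^ p : (MvPolynomial (Fin 3) k))
        = (X 0 ^ p - C (ε ^ p)) * ((X 1 ^ p) ^ (2 * p - 1) * (X 2 ^ p) ^ (2 * p - 1)) + v := by
  have hp := hpp.out.two_le
  obtain ⟨c, h0, h1, h2⟩ := exists_coeffs (k := k) (p - 1) 1
  have hN : p - 1 + 1 = p := by omega
  rw [hN] at h1 h2
  have h3 := h2 (X 1 ^ p) (X 2 ^ p) (X 0 ^ p)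
  rw [pow_one] at h3
  have hG : (G p (p - 1) ^ p : (MvPolynomial (Fin 3) k)) = (X 1 ^ p) ^ (p - 1) * (X 2 ^ p) ^ (p - 1) *
      ((X 1 ^ p + X 2 ^ p) ^ (p - 1) * (X 1 ^ p + X 0 ^ p * X 2 ^ p)) := by
    have e : p - (p - 1) = 1 := by omega
    rw [G, e, pow_one, mul_pow, ← pow_mul, mul_comm (p - 1) p, pow_mul, mul_pow (X 1 * X 2 : (MvPolynomial (Fin 3) k)),
      mul_pow (X 1 : (MvPolynomial (Fin 3) k)), add_pow_char, add_pow_char, mul_pow (X 0 : (MvPolynomial (Fin 3) k)), mul_pow, mul_pow]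
    ring
  -- the two sums
  have hS1 : ∃ v : (MvPolynomial (Fin 3) k), Mem3 p v ∧ (X 1 ^ p) ^ p * G p (p - 1) ^ p
      = X 0 ^ p * ((X 1 ^ p) ^ (2 * p - 1) * (X 2 ^ p) ^ (2 * p - 1)) + v := by
    refine ⟨∑ i ∈ range p, (X 1 ^ p * X 1 ^ p) ^ p * (Polynomial.aeval (X 0 ^ p : (MvPolynomial (Fin 3) k)) (c (i + 1)) *
      ((X 1 ^ p) ^ i * (X 2 ^ p) ^ (2 * p - 2 - i))), ?_, ?_⟩
    · refine Mem3.sum fun i hi => ?_
      rw [Finset.mem_range] at hi
      refine Mem.xx3 (Mem.aeval_mul _ (mem_pow_pow (by omega) ?_))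
      have : i + (2 * p - 2 - i) = 2 * (p - 1) := by omega
      rw [this]
      exact even_two_mul _
    · rw [hG, h3, Finset.sum_range_succ', mul_add, mul_add, add_comm,
        h0, pow_one, Polynomial.aeval_X]
      congr 1
      · have e1 : 2 * p - 1 = p + (p - 1) := by omega
        rw [e1, pow_add, pow_add, Nat.sub_zero]
        ring
      · rw [Finset.mul_sum, Finset.mul_sum]
        refine Finset.sum_congr rfl fun i hi => ?_
        rw [Finset.mem_range] at hi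
        have e1 : 2 * p - 2 - i = (p - 1) + (p - (i + 1)) := by omega
        obtain ⟨q, hq⟩ : ∃ q, p = q + 1 := ⟨p - 1, by omega⟩
        have e2 : (X 1 ^ p : (MvPolynomial (Fin 3) k)) ^ p * ((X 1 ^ p) ^ (p - 1) * (X 1 ^ p) ^ (i + 1))
            = (X 1 ^ p * X 1 ^ p) ^ p * (X 1 ^ p) ^ i := by
          rw [← pow_add, ← pow_add, mul_pow, ← pow_add, ← pow_add]
          congr 1
          omega
        rw [e1, pow_add (X 2 ^ p)]
        linear_combination ((X 2 ^ p) ^ (p - 1) * (X 2 ^ p) ^ (p - (i + 1)) *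
          Polynomial.aeval (X 0 ^ p : (MvPolynomial (Fin 3) k)) (c (i + 1))) * e2
  have hS2 : ∃ v : (MvPolynomial (Fin 3) k), Mem3 p v ∧ (X 2 ^ p) ^ p * G p (p - 1) ^ p
      = (X 1 ^ p) ^ (2 * p - 1) * (X 2 ^ p) ^ (2 * p - 1) + v := by
    refine ⟨∑ i ∈ range p, (X 2 ^ p * X 2 ^ p) ^ p * (Polynomial.aeval (X 0 ^ p : (MvPolynomial (Fin 3) k)) (c i) *
      ((X 1 ^ p) ^ (p - 1 + i) * (X 2 ^ p) ^ (p - 1 - i))), ?_, ?_⟩
    · refine Mem3.sum fun i hi => ?_
      rw [Finset.mem_range] at hi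
      refine Mem.yy3 (Mem.aeval_mul _ (mem_pow_pow (by omega) ?_))
      have : p - 1 + i + (p - 1 - i) = 2 * (p - 1) := by omega
      rw [this]
      exact even_two_mul _
    · rw [hG, h3, Finset.sum_range_succ, mul_add, mul_add, add_comm, h1, map_one]
      congr 1
      · have e1 : 2 * p - 1 = p + (p - 1) := by omega
        rw [e1, pow_add, pow_add, Nat.sub_self, pow_zero]
        ring
      · rw [Finset.mul_sum, Finset.mul_sum]
        refine Finset.sum_congr rfl fun i hi => ?_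
        rw [Finset.mem_range] at hi
        have e2 : (X 2 ^ p : (MvPolynomial (Fin 3) k)) ^ p * ((X 2 ^ p) ^ (p - 1) * (X 2 ^ p) ^ (p - i))
            = (X 2 ^ p * X 2 ^ p) ^ p * (X 2 ^ p) ^ (p - 1 - i) := by
          rw [← pow_add, ← pow_add, mul_pow, ← pow_add, ← pow_add]
          congr 1
          omega
        rw [pow_add (X 1 ^ p)]
        linear_combination ((X 1 ^ p) ^ (p - 1) * (X 1 ^ p) ^ i *
          Polynomial.aeval (X 0 ^ p : (MvPolynomial (Fin 3) k)) (c i)) * e2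
  obtain ⟨v, hv, hv'⟩ := hS1
  obtain ⟨w, hw, hw'⟩ := hS2
  refine ⟨v + C (- ε ^ p) * w, hv.add (hw.C_mul _), ?_⟩
  rw [sub_pow_char, mul_pow, mul_pow, mul_pow, hv', hw', map_neg, map_pow]
  ring

end AllP

end MP85340c
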