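import Pool.Agent.Lib.MP_85340c_ag.AllP.Hyper2

/-!
# Hyperplane sections of the example, in all characteristics: the equation
-/

namespace MP85340c

namespace AllP

open MvPolynomial Finset

variable {k : Type*} [Field k]

variable {p : ℕ} [hpp : Fact p.Prime] [CharP k p]

/-- `(xy) ^ (p (2p - 1))` -/
noncomputable def zT (p : ℕ) : MvPolynomial (Fin 3) k :=
  (X 1 ^ p) ^ (2 * p - 1) * (X 2 ^ p) ^ (2 * p - 1)

theorem mem_zT : Mem p (zT p : (MvPolynomial (Fin 3) k)) := by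
  refine mem_pow_pow hpp.out.pos ?_
  exact ⟨_, rfl⟩

omit [CharP k p] in
theorem a_mul_zT : Mem3 p (X 1 ^ p * X 1 ^ p * zT p : (MvPolynomial (Fin 3) k)) := by
  have hp := hpp.out.two_le
  have h : (X 1 ^ p * X 1 ^ p * zT p : (MvPolynomial (Fin 3) k)) = (X 1 ^ p * X 1 ^ p) ^ p *
      ((X 1 ^ p) ^ 1 * (X 2 ^ p) ^ (2 * p - 1)) := by
    have e2 : (X 1 ^ p * X 1 ^ p * (X 1 ^ p) ^ (2 * p - 1) : (MvPolynomial (Fin 3) k))
        = (X 1 ^ p * X 1 ^ p) ^ p * (X 1 ^ p) ^ 1 := by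
      generalize (X 1 ^ p : (MvPolynomial (Fin 3) k)) = u
      rw [← pow_two, ← pow_add, ← pow_mul, ← pow_add]
      congr 1
      omega
    rw [zT]
    linear_combination ((X 2 ^ p) ^ (2 * p - 1)) * e2
  rw [h]
  refine Mem.xx3 (mem_pow_pow (by omega) ⟨p, by omega⟩)

omit [CharP k p] in
theorem c_mul_zT : Mem3 p (X 2 ^ p * X 2 ^ p * zT p : (MvPolynomial (Fin 3) k)) := by
  have hp := hpp.out.two_le
  have h : (X 2 ^ p * X 2 ^ p * zT p : (MvPolynomial (Fin 3) k)) = (X 2 ^ p * X 2 ^ p) ^ p *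
      ((X 1 ^ p) ^ (2 * p - 1) * (X 2 ^ p) ^ 1) := by
    have e2 : (X 2 ^ p * X 2 ^ p * (X 2 ^ p) ^ (2 * p - 1) : (MvPolynomial (Fin 3) k))
        = (X 2 ^ p * X 2 ^ p) ^ p * (X 2 ^ p) ^ 1 := by
      generalize (X 2 ^ p : (MvPolynomial (Fin 3) k)) = u
      rw [← pow_two, ← pow_add, ← pow_mul, ← pow_add]
      congr 1
      omega
    rw [zT]
    linear_combination ((X 1 ^ p) ^ (2 * p - 1)) * e2
  rw [h]
  refine Mem.yy3 (mem_pow_pow (by omega) ⟨p, by omega⟩)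

theorem Mem.xxn {v : (MvPolynomial (Fin 3) k)} (hv : Mem p v) (n : ℕ) : Mem p ((X 1 ^ p * X 1 ^ p) ^ n * v) := by
  induction n with
  | zero => simpa using hv
  | succ n ih => rw [pow_succ', mul_assoc]; exact ih.xx_mul

theorem Mem.yyn {v : (MvPolynomial (Fin 3) k)} (hv : Mem p v) (n : ℕ) : Mem p ((X 2 ^ p * X 2 ^ p) ^ n * v) := by
  induction n with
  | zero => simpa using hv
  | succ n ih => rw [pow_succ', mul_assoc]; exact ih.yy_mul

theorem bas_mul_zT {i : Fin 2 × Fin p} (hi : i ≠ i0 hpp.out.pos) :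
    Mem3 p (bas p i * zT p : (MvPolynomial (Fin 3) k)) := by
  have hp := hpp.out.two_le
  have ex : (X 1 ^ p * (X 1 ^ p) ^ (2 * p - 1) : (MvPolynomial (Fin 3) k)) = (X 1 ^ p * X 1 ^ p) ^ p := by
    rw [mul_pow, ← pow_add, ← pow_succ']
    congr 1
    omega
  have ey : (X 2 ^ p * (X 2 ^ p) ^ (2 * p - 1) : (MvPolynomial (Fin 3) k)) = (X 2 ^ p * X 2 ^ p) ^ p := by
    rw [mul_pow, ← pow_add, ← pow_succ']
    congr 1
    omega
  have ex' : ((X 1 ^ p) ^ (2 * p - 1) : (MvPolynomial (Fin 3) k)) = (X 1 ^ p * X 1 ^ p) ^ (p - 1) * X 1 ^ p := by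
    rw [mul_pow, ← pow_add, ← pow_succ]
    congr 1
    omega
  have ey' : ((X 2 ^ p) ^ (2 * p - 1) : (MvPolynomial (Fin 3) k)) = (X 2 ^ p * X 2 ^ p) ^ (p - 1) * X 2 ^ p := by
    rw [mul_pow, ← pow_add, ← pow_succ]
    congr 1
    omega
  rcases bas_cases (k := k) i with ⟨h0, -⟩ | ⟨-, h⟩ | ⟨m, hm, -, -, h⟩ | ⟨m, hm, -, -, h⟩
  · exact absurd h0 hi
  · have e : (bas p i * zT p : (MvPolynomial (Fin 3) k)) = (X 1 ^ p * X 1 ^ p) ^ p * ((X 2 ^ p * X 2 ^ p) ^ p * 1) := by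
      rw [h, zT, ← ex, ← ey]; ring
    rw [e]
    exact ((mem_one (k := k) hpp.out.pos).yyn p).xx3
  · have e : (bas p i * zT p : (MvPolynomial (Fin 3) k)) = (X 1 ^ p * X 1 ^ p) ^ p *
        ((X 2 ^ p * X 2 ^ p) ^ (p - 1) * (X 2 ^ p * G p m)) := by
      rw [h, zT, ← ex, ey']; ring
    rw [e]
    exact ((mem_y_G hm.le).yyn _).xx3
  · have e : (bas p i * zT p : (MvPolynomial (Fin 3) k)) = (X 2 ^ p * X 2 ^ p) ^ p *
        ((X 1 ^ p * X 1 ^ p) ^ (p - 1) * (X 1 ^ p * G p m)) := by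
      rw [h, zT, ← ey, ex']; ring
    rw [e]
    exact ((mem_x_G hm.le).xxn _).yy3

variable (k p)

theorem algebraMap_C (r : k) :
    algebraMap k (Rp k p) r = algebraMap (MvPolynomial (Fin 3) k) (Rp k p) (C r) := by
  apply Subtype.ext
  rw [coe_algebraMap_Rp, iota_C]
  rfl

theorem coe_algebraMap_k (r : k) : (algebraMap k (Rp k p) r : (MvPolynomial (Fin 3) k)) = C r := rfl

theorem algebraMap_k_mul (r : k) (v : Rp k p) : algebraMap k (Rp k p) r * v = (C r : (MvPolynomial (Fin 3) k)) • v := by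
  rw [algebraMap_C, Algebra.smul_def]

theorem psi_algebraMap_mul (i : Fin 2 × Fin p) (r : k) (v : Rp k p) :
    psi k p i (algebraMap k (Rp k p) r * v) = Polynomial.C r * psi k p i v := by
  rw [algebraMap_k_mul, psi_smul]
  congr 1
  simp [red]

/-- The equation of a hyperplane section. -/
noncomputable def hyp (b0 b1 b2 b3 : k) (β : Fin 2 × Fin p → k) : Rp k p :=
  algebraMap k (Rp k p) b0 + (algebraMap k (Rp k p) b1 * tR k p +
    algebraMap k (Rp k p) b2 * aR k p + algebraMap k (Rp k p) b3 * cR k p +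
    ∑ i ∈ univ.erase (i0 hpp.out.pos), algebraMap k (Rp k p) (β i) * basR k p i)

/-- the index of the basis element `x ^ p * G (p - 1)` -/
def iL : Fin 2 × Fin p := (0, ⟨p - 1, Nat.sub_lt hpp.out.pos one_pos⟩)

/-- the index of the basis element `y ^ p * G (p - 1)` -/
def iM : Fin 2 × Fin p := (1, ⟨p - 1, Nat.sub_lt hpp.out.pos one_pos⟩)

omit [CharP k p] in
theorem iL_ne : (iL p : Fin 2 × Fin p) ≠ i0 hpp.out.pos := by
  intro h
  have h2 := congrArg (fun i : Fin 2 × Fin p => (i.2 : ℕ)) h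
  simp only [iL, i0] at h2
  have := hpp.out.two_le
  omega

theorem iM_ne : (iM p : Fin 2 × Fin p) ≠ i0 hpp.out.pos := by
  intro h
  have h2 := congrArg (fun i : Fin 2 × Fin p => (i.1 : ℕ)) h
  simp [iM, i0] at h2

theorem iL_ne_iM : (iL p : Fin 2 × Fin p) ≠ iM p := by
  intro h
  have h2 := congrArg (fun i : Fin 2 × Fin p => (i.1 : ℕ)) h
  simp [iM, iL] at h2

theorem bas_iL : (bas p (iL p) : (MvPolynomial (Fin 3) k)) = X 1 ^ p * G p (p - 1) := by
  have := hpp.out.two_le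
  have h : p - 1 ≠ 0 := by omega
  simp [bas, iL, h]

theorem bas_iM : (bas p (iM p) : (MvPolynomial (Fin 3) k)) = X 2 ^ p * G p (p - 1) := by
  have := hpp.out.two_le
  have h : p - 1 ≠ 0 := by omega
  simp [bas, iM, h]

/-- the witness -/
noncomputable def wit (ε : k) : Rp k p := basR k p (iL p) - algebraMap k (Rp k p) ε * basR k p (iM p)

/-- The key identity. -/
theorem key_identity (b0 b1 b2 b3 : k) (β : Fin 2 × Fin p → k) (ε : k)
    (hε : b0 + b1 * ε ^ p = 0) : ∃ z v₁ v₂ : Rp k p,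
      algebraMap k (Rp k p) b1 * wit k p ε ^ p
        = hyp k p b0 b1 b2 b3 β * z + aR k p ^ p * v₁ + cR k p ^ p * v₂ := by
  obtain ⟨v, hv, hw⟩ := wit_pow (k := k) (p := p) ε
  have h1 : Mem3 p (C b1 * v + (C (-b2) * (X 1 ^ p * X 1 ^ p * zT p) +
      C (-b3) * (X 2 ^ p * X 2 ^ p * zT p) +
      ∑ i ∈ univ.erase (i0 hpp.out.pos), C (-β i) * (bas p i * zT p)) : (MvPolynomial (Fin 3) k)) := by
    refine (hv.C_mul _).add (((a_mul_zT.C_mul _).add (c_mul_zT.C_mul _)).add ?_)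
    refine Mem3.sum fun i hi => ?_
    exact (bas_mul_zT (Finset.ne_of_mem_erase hi)).C_mul _
  obtain ⟨v₁, v₂, hv1, hv2, hv12⟩ := h1
  refine ⟨⟨zT p, mem_zT⟩, ⟨v₁, hv1⟩, ⟨v₂, hv2⟩, ?_⟩
  apply Subtype.ext
  have e1 : ((wit k p ε : Rp k p) : (MvPolynomial (Fin 3) k)) = X 1 ^ p * G p (p - 1) - C ε * (X 2 ^ p * G p (p - 1)) := by
    rw [wit, AddSubgroupClass.coe_sub, MulMemClass.coe_mul, coe_basR, coe_basR, bas_iL, bas_iM,
      coe_algebraMap_k]
  have e2 : ((hyp k p b0 b1 b2 b3 β : Rp k p) : (MvPolynomial (Fin 3) k)) = C b0 + (C b1 * X 0 ^ p +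
      C b2 * (X 1 ^ p * X 1 ^ p) + C b3 * (X 2 ^ p * X 2 ^ p) +
      ∑ i ∈ univ.erase (i0 hpp.out.pos), C (β i) * bas p i) := by
    rw [hyp]
    simp only [AddMemClass.coe_add, MulMemClass.coe_mul, AddSubmonoidClass.coe_finsetSum,
      coe_basR, coe_aR, coe_cR, coe_tR, coe_algebraMap_k]
  have e3 : (∑ i ∈ univ.erase (i0 hpp.out.pos), C (-β i) * (bas p i * zT p) : (MvPolynomial (Fin 3) k))
      = - (∑ i ∈ univ.erase (i0 hpp.out.pos), C (β i) * bas p i) * zT p := by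
    rw [neg_mul, Finset.sum_mul, ← Finset.sum_neg_distrib]
    refine Finset.sum_congr rfl fun i _ => ?_
    rw [C_neg]
    ring
  rw [e3] at hv12
  rw [MulMemClass.coe_mul, SubmonoidClass.coe_pow, e1, hw, AddMemClass.coe_add, AddMemClass.coe_add,
    MulMemClass.coe_mul, MulMemClass.coe_mul, MulMemClass.coe_mul, SubmonoidClass.coe_pow,
    SubmonoidClass.coe_pow, coe_aR, coe_cR, e2, coe_algebraMap_k, add_assoc, ← hv12]
  have e4 : (C b0 : (MvPolynomial (Fin 3) k)) = - (C b1 * C (ε ^ p)) := by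
    rw [← C_mul, ← C_neg]
    congr 1
    linear_combination hε
  rw [e4, ← zT, C_neg, C_neg]
  ring

/-- Evaluation at the point `t = ε`, `x = y = 0`. -/
noncomputable def EV (ε : k) : Rp k p →+* k :=
  (aeval ![ε, 0, 0] : MvPolynomial (Fin 3) k →ₐ[k] k).toRingHom.comp (Rp k p).val.toRingHom

theorem EV_apply (ε : k) (v : Rp k p) :
    EV k p ε v = aeval ![ε, 0, 0] (v : MvPolynomial (Fin 3) k) := rfl

theorem EV_algebraMap (ε : k) (b : (MvPolynomial (Fin 3) k)) :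
    EV k p ε (algebraMap (MvPolynomial (Fin 3) k) (Rp k p) b) = (red k b).eval (ε ^ p) := by
  rw [EV_apply, coe_algebraMap_Rp]
  have hp := hpp.out.ne_zero
  have : ((aeval ![ε, 0, 0] : MvPolynomial (Fin 3) k →ₐ[k] k).comp (iota p))
      = ((Polynomial.aeval (ε ^ p) : Polynomial k →ₐ[k] k)).comp (red k) := by
    apply MvPolynomial.algHom_ext
    intro i
    fin_cases i
    · simp [iota, red, dd]
    · simp [iota, red, dd, hp]
    · simp [iota, red, dd, hp]
  have h2 := DFunLike.congr_fun this b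
  simpa [Polynomial.aeval_def, Polynomial.eval₂_eq_eval_map] using h2

theorem EV_basR (ε : k) {i : Fin 2 × Fin p} (hi : i ≠ i0 hpp.out.pos) :
    EV k p ε (basR k p i) = 0 := by
  have hp := hpp.out.ne_zero
  rw [EV_apply, coe_basR]
  rcases bas_cases (k := k) i with ⟨h0, -⟩ | ⟨-, h⟩ | ⟨m, hm, -, -, h⟩ | ⟨m, hm, -, -, h⟩
  · exact absurd h0 hi
  · rw [h]; simp [hp]
  · rw [h]; simp [hp]
  · rw [h]; simp [hp]

theorem EV_eq (ε : k) (v : Rp k p) :
    EV k p ε v = (psi k p (i0 hpp.out.pos) v).eval (ε ^ p) := by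
  nth_rewrite 1 [eq_sum k p v]
  rw [map_sum, Finset.sum_eq_single (i0 hpp.out.pos)]
  · rw [Algebra.smul_def, map_mul, basR_i0, map_one, mul_one, EV_algebraMap]
    rfl
  · intro i _ hi
    rw [Algebra.smul_def, map_mul, EV_basR k p ε hi, mul_zero]
  · simp

theorem psi_hyp (b0 b1 b2 b3 : k) (β : Fin 2 × Fin p → k) :
    psi k p (i0 hpp.out.pos) (hyp k p b0 b1 b2 b3 β)
      = Polynomial.C b0 + Polynomial.C b1 * Polynomial.X := by
  have h1 : ∀ r : k, psi k p (i0 hpp.out.pos) (algebraMap k (Rp k p) r) = Polynomial.C r := by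
    intro r
    rw [← mul_one (algebraMap k (Rp k p) r), psi_algebraMap_mul, ← basR_i0, psi_basR, if_pos rfl,
      mul_one]
  have h2 : psi k p (i0 hpp.out.pos) (tR k p) = Polynomial.X := by
    rw [tR, ← mul_one (algebraMap _ _ _), ← Algebra.smul_def, psi_smul, ← basR_i0, psi_basR,
      if_pos rfl, mul_one, red_X0]
  have h3 : psi k p (i0 hpp.out.pos) (aR k p) = 0 := by
    rw [← mul_one (aR k p), psi_aR_mul]
  have h4 : psi k p (i0 hpp.out.pos) (cR k p) = 0 := by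
    rw [← mul_one (cR k p), psi_cR_mul]
  have h5 : psi k p (i0 hpp.out.pos) (∑ i ∈ univ.erase (i0 hpp.out.pos),
      algebraMap k (Rp k p) (β i) * basR k p i) = 0 := by
    rw [psi_sum]
    refine Finset.sum_eq_zero fun i hi => ?_
    rw [psi_algebraMap_mul, psi_basR, if_neg (Finset.ne_of_mem_erase hi).symm, mul_zero]
  rw [hyp, psi_add, psi_add, psi_add, psi_add, h1, psi_algebraMap_mul, psi_algebraMap_mul,
    psi_algebraMap_mul, h2, h3, h4, h5]
  ring

theorem psi_wit_zero (ε : k) : psi k p (i0 hpp.out.pos) (wit k p ε) = 0 := by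
  have h : wit k p ε = basR k p (iL p) + algebraMap k (Rp k p) (-ε) * basR k p (iM p) := by
    rw [wit, map_neg]; ring
  rw [h, psi_add, psi_algebraMap_mul, psi_basR, psi_basR, if_neg (iL_ne p).symm,
    if_neg (iM_ne p).symm, mul_zero, add_zero]

theorem psi_wit_L (ε : k) : psi k p (iL p) (wit k p ε) = 1 := by
  have h : wit k p ε = basR k p (iL p) + algebraMap k (Rp k p) (-ε) * basR k p (iM p) := by
    rw [wit, map_neg]; ring
  rw [h, psi_add, psi_algebraMap_mul, psi_basR, psi_basR, if_pos rfl,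
    if_neg (iL_ne_iM p), mul_zero, add_zero]

theorem EV_eq_zero_of_mul_wit {b0 b1 b2 b3 : k} {β : Fin 2 × Fin p → k} {ε : k}
    (hb1 : b1 ≠ 0) (hε : b0 + b1 * ε ^ p = 0) {s : Rp k p}
    (hs : s * wit k p ε ∈ Ideal.span {aR k p, cR k p, hyp k p b0 b1 b2 b3 β}) :
    EV k p ε s = 0 := by
  rw [Ideal.mem_span_insert] at hs
  obtain ⟨α, z, hz, hs⟩ := hs
  rw [Ideal.mem_span_pair] at hz
  obtain ⟨γ, δ, rfl⟩ := hz
  rw [mul_comm α, mul_comm γ, mul_comm δ] at hs
  set h := hyp k p b0 b1 b2 b3 β with hh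
  have hne : (Polynomial.C b0 + Polynomial.C b1 * Polynomial.X : Polynomial k) ≠ 0 := by
    intro h0
    have := congrArg (fun q => Polynomial.coeff q 1) h0
    simp at this
    exact hb1 this
  have e0 := congrArg (psi k p (i0 hpp.out.pos)) hs
  rw [psi_mul, if_pos rfl, add_zero, psi_wit_zero, mul_zero, psi_add, psi_aR_mul, zero_add,
    psi_add, psi_cR_mul, zero_add, psi_mul, if_pos rfl, add_zero, hh, psi_hyp] at e0
  have hδ := (mul_eq_zero.1 e0.symm).resolve_left hne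
  have eL := congrArg (psi k p (iL p)) hs
  rw [psi_mul, if_neg (iL_ne p), psi_wit_L, psi_wit_zero, mul_zero, mul_one, add_zero, psi_add,
    psi_aR_mul, zero_add, psi_add, psi_cR_mul, zero_add, psi_mul, if_neg (iL_ne p), hδ, mul_zero,
    add_zero, hh, psi_hyp] at eL
  rw [EV_eq, eL, Polynomial.eval_mul]
  have : Polynomial.eval (ε ^ p) (Polynomial.C b0 + Polynomial.C b1 * Polynomial.X) = 0 := by
    simpa using hε
  rw [this, zero_mul]

end AllP

end MP85340c
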