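import Pool.Agent.Lib.MP_85340c_ag.AllP.Extract

/-!
# The ring of the example, in all characteristics
-/

namespace MP85340c

namespace AllP

open MvPolynomial Finset

variable {k : Type*} [Field k]

/-! ## Expansion of products of linear forms -/

theorem expand_step {N : ℕ} (c : ℕ → Polynomial k) (u : Polynomial k) (x y t f : (MvPolynomial (Fin 3) k))
    (hf : f = ∑ i ∈ range (N + 1), Polynomial.aeval t (c i) * x ^ i * y ^ (N - i)) :
    f * (x + Polynomial.aeval t u * y) = ∑ i ∈ range (N + 2),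
      Polynomial.aeval t ((if i = 0 then 0 else c (i - 1)) + (if i = N + 1 then 0 else u * c i))
        * x ^ i * y ^ (N + 1 - i) := by
  have h1 : ∀ i ∈ range (N + 2),
      Polynomial.aeval t ((if i = 0 then 0 else c (i - 1)) + (if i = N + 1 then 0 else u * c i))
        * x ^ i * y ^ (N + 1 - i)
      = (if i = 0 then 0 else Polynomial.aeval t (c (i - 1)) * x ^ i * y ^ (N + 1 - i))
        + (if i = N + 1 then 0 else
            Polynomial.aeval t u * (Polynomial.aeval t (c i) * x ^ i * y ^ (N + 1 - i))) := by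
    intro i _
    rw [map_add, add_mul, add_mul]
    congr 1
    · split_ifs <;> simp
    · split_ifs
      · simp
      · rw [map_mul]; ring
  rw [Finset.sum_congr rfl h1, Finset.sum_add_distrib, Finset.sum_range_succ' _ (N + 1),
    Finset.sum_range_succ _ (N + 1)]
  simp only [if_true, add_zero, Nat.add_eq_zero_iff, one_ne_zero, and_false, if_false,
    Nat.add_sub_cancel]
  rw [mul_add, hf, Finset.sum_mul, Finset.sum_mul]
  congr 1
  · refine Finset.sum_congr rfl fun i _ => ?_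
    rw [Nat.add_sub_add_right]
    ring
  · refine Finset.sum_congr rfl fun i hi => ?_
    rw [Finset.mem_range] at hi
    rw [if_neg (by omega)]
    have : N + 1 - i = (N - i) + 1 := by omega
    rw [this]
    ring

theorem exists_coeffs (m n : ℕ) : ∃ c : ℕ → Polynomial k, c 0 = Polynomial.X ^ n ∧
    c (m + n) = 1 ∧ ∀ x y t : (MvPolynomial (Fin 3) k), (x + y) ^ m * (x + t * y) ^ n
      = ∑ i ∈ range (m + n + 1), Polynomial.aeval t (c i) * x ^ i * y ^ (m + n - i) := by
  induction m with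
  | zero =>
    induction n with
    | zero => exact ⟨fun _ => 1, by simp, rfl, fun x y t => by simp⟩
    | succ n ih =>
      obtain ⟨c, h0, h1, h2⟩ := ih
      refine ⟨fun i => (if i = 0 then 0 else c (i - 1)) +
        (if i = 0 + n + 1 then 0 else Polynomial.X * c i), ?_, ?_, fun x y t => ?_⟩
      · simp only [if_true]
        rw [if_neg (by omega), h0, zero_add, pow_succ]
        ring
      · have e : 0 + (n + 1) = 0 + n + 1 := by omega
        simp only [e]
        rw [if_neg (by omega), if_pos trivial, Nat.add_sub_cancel, h1, add_zero]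
      · have h3 := expand_step (N := 0 + n) c Polynomial.X x y t _ (h2 x y t)
        rw [Polynomial.aeval_X] at h3
        have e : 0 + (n + 1) = 0 + n + 1 := by omega
        rw [pow_succ, ← mul_assoc, h3, e]
  | succ m ih =>
    obtain ⟨c, h0, h1, h2⟩ := ih
    refine ⟨fun i => (if i = 0 then 0 else c (i - 1)) +
      (if i = m + n + 1 then 0 else 1 * c i), ?_, ?_, fun x y t => ?_⟩
    · simp only [if_true]
      rw [if_neg (by omega), h0, zero_add, one_mul]
    · have e : m + 1 + n = m + n + 1 := by omega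
      simp only [e]
      rw [if_neg (by omega), if_pos trivial, Nat.add_sub_cancel, h1, add_zero]
    · have h3 := expand_step (N := m + n) c 1 x y t _ (h2 x y t)
      rw [map_one, one_mul] at h3
      have e : m + 1 + n = m + n + 1 := by omega
      rw [pow_succ, mul_right_comm, h3, e]

/-! ## Coefficient extraction with periods `p, 2p, 2p` -/

variable (p : ℕ)

/-- the periods -/
def dd : Fin 3 → ℕ := ![p, 2 * p, 2 * p]

/-- The inclusion `(t', a, c) ↦ (t ^ p, x ^ (2p), y ^ (2p))`. -/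
noncomputable def iota : MvPolynomial (Fin 3) k →ₐ[k] MvPolynomial (Fin 3) k :=
  aeval fun i => X i ^ dd p i

theorem iota_monomial (m : Fin 3 →₀ ℕ) (c : k) :
    iota p (monomial m c) = monomial (scl (dd p) m) c := by
  rw [iota, aeval_monomial, monomial_eq, algebraMap_eq, Finsupp.prod_fintype _ _ (by simp),
    Finsupp.prod_fintype _ _ (by simp)]
  congr 1
  refine Finset.prod_congr rfl fun i _ => ?_
  rw [scl_apply, pow_mul]

variable {p}

theorem dd_pos (hp : 0 < p) (i : Fin 3) : 0 < dd p i := by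
  fin_cases i <;> simp [dd, hp]

theorem ext_iota_mul (hp : 0 < p) (β : Fin 3 → ℕ) (b f : (MvPolynomial (Fin 3) k)) :
    ext (dd p) β (iota p b * f) = b * ext (dd p) β f := by
  induction b using MvPolynomial.induction_on' with
  | monomial m c => rw [iota_monomial, ext_scl_mul (dd_pos hp)]
  | add b b' hb hb' => rw [map_add, add_mul, map_add, hb, hb', add_mul]

theorem ext_mon (β : Fin 3 → ℕ) (n a b : ℕ) :
    ext (dd p) β (X 0 ^ n * X 1 ^ a * X 2 ^ b : (MvPolynomial (Fin 3) k))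
      = if n % p = β 0 ∧ a % (2 * p) = β 1 ∧ b % (2 * p) = β 2 then
        X 0 ^ (n / p) * X 1 ^ (a / (2 * p)) * X 2 ^ (b / (2 * p)) else 0 := by
  classical
  have h1 : ∀ n a b : ℕ, (X 0 ^ n * X 1 ^ a * X 2 ^ b : (MvPolynomial (Fin 3) k))
      = monomial (Finsupp.equivFunOnFinite.symm ![n, a, b]) 1 := by
    intro n a b
    rw [monomial_eq, C_1, one_mul, Finsupp.prod_fintype _ _ (by simp), Fin.prod_univ_three]
    rfl
  rw [h1, h1, ext_monomial]
  have h2 : (∀ i, (Finsupp.equivFunOnFinite.symm ![n, a, b] : Fin 3 →₀ ℕ) i % dd p i = β i)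
      ↔ (n % p = β 0 ∧ a % (2 * p) = β 1 ∧ b % (2 * p) = β 2) := by
    constructor
    · intro h
      exact ⟨h 0, h 1, h 2⟩
    · rintro ⟨h0, h1, h2⟩ i
      fin_cases i
      · exact h0
      · exact h1
      · exact h2
  have h3 : quo (dd p) (Finsupp.equivFunOnFinite.symm ![n, a, b])
      = Finsupp.equivFunOnFinite.symm ![n / p, a / (2 * p), b / (2 * p)] := by
    ext i
    fin_cases i <;> rfl
  simp only [h2, h3]

theorem ext_term_eq_zero (β : Fin 3 → ℕ) (q : Polynomial k) (a b : ℕ)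
    (h : ¬ (a % (2 * p) = β 1 ∧ b % (2 * p) = β 2)) :
    ext (dd p) β (Polynomial.aeval (X 0 : (MvPolynomial (Fin 3) k)) q * X 1 ^ a * X 2 ^ b) = 0 := by
  induction q using Polynomial.induction_on' with
  | add q r hq hr => rw [map_add, add_mul, add_mul, map_add, hq, hr, add_zero]
  | monomial n c =>
    rw [Polynomial.aeval_monomial, mul_assoc, mul_assoc, algebraMap_eq, C_mul', map_smul,
      ← mul_assoc, ext_mon, if_neg (by tauto), smul_zero]

variable (p)

/-- the polynomials `g ^ j * l ^ (p - j)`, `g = xy(x + y)`, `l = x + ty` -/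
noncomputable def G (j : ℕ) : (MvPolynomial (Fin 3) k) :=
  (X 1 * X 2 * (X 1 + X 2)) ^ j * (X 1 + X 0 * X 2) ^ (p - j)

/-- the basis `1, (xy) ^ p, x ^ p * G j, y ^ p * G j` -/
noncomputable def bas (i : Fin 2 × Fin p) : (MvPolynomial (Fin 3) k) :=
  if (i.2 : ℕ) = 0 then (if i.1 = 0 then 1 else (X 1 * X 2) ^ p)
  else (if i.1 = 0 then X 1 else X 2) ^ p * G p i.2

/-- the residues of the dual functionals -/
def res (i : Fin 2 × Fin p) : Fin 3 → ℕ :=
  if (i.2 : ℕ) = 0 then ![0, i.1 * p, i.1 * p]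
  else ![if i.1 = 0 then p - i.2 else 0, p + i.2, p + i.2]

variable {p}

theorem ext_mul_G {β : Fin 3 → ℕ} (hβ : β 1 = β 2) (hp : 0 < p) {j : ℕ} (hj : j ≤ p) {u v : ℕ}
    (huv : (u = p ∧ v = 0) ∨ (u = 0 ∧ v = p)) :
    ext (dd p) β (X 1 ^ u * X 2 ^ v * G p j : (MvPolynomial (Fin 3) k))
      = ext (dd p) β (X 0 ^ (p - j) * X 1 ^ (u + j) * X 2 ^ (v + j + p)) +
        ext (dd p) β (X 0 ^ 0 * X 1 ^ (u + j + p) * X 2 ^ (v + j)) := by
  obtain ⟨c, h0, h1, h2⟩ := exists_coeffs (k := k) j (p - j)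
  have hN : j + (p - j) = p := by omega
  rw [hN] at h1 h2
  have h3 : (X 1 ^ u * X 2 ^ v * G p j : (MvPolynomial (Fin 3) k)) = ∑ i ∈ range (p + 1),
      Polynomial.aeval (X 0 : (MvPolynomial (Fin 3) k)) (c i) * X 1 ^ (u + j + i) * X 2 ^ (v + j + (p - i)) := by
    rw [G, mul_pow (X 1 * X 2 : (MvPolynomial (Fin 3) k)), mul_assoc ((X 1 * X 2 : (MvPolynomial (Fin 3) k)) ^ j), h2, Finset.mul_sum,
      Finset.mul_sum]
    refine Finset.sum_congr rfl fun i _ => ?_
    rw [mul_pow]
    ring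
  obtain ⟨p', rfl⟩ : ∃ p', p = p' + 1 := ⟨p - 1, by omega⟩
  rw [h3, Finset.sum_range_succ, Finset.sum_range_succ', map_add, map_add, map_sum,
    Finset.sum_eq_zero, zero_add]
  · rw [h0, h1, map_pow, Polynomial.aeval_X, map_one]
    simp only [Nat.sub_zero, Nat.sub_self, add_zero, pow_zero]
  · intro i hi
    rw [Finset.mem_range] at hi
    refine ext_term_eq_zero _ _ _ _ ?_
    rintro ⟨ha, hb⟩
    rw [hβ] at ha
    rcases huv with ⟨rfl, rfl⟩ | ⟨rfl, rfl⟩
    · have h4 := Nat.sub_mod_eq_zero_of_mod_eq (ha.trans hb.symm)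
      have h5 : p' + 1 + j + (i + 1) - (0 + j + (p' + 1 - (i + 1))) = 2 * (i + 1) := by omega
      rw [h5, Nat.mod_eq_of_lt (by omega)] at h4
      omega
    · have h4 := Nat.sub_mod_eq_zero_of_mod_eq (hb.trans ha.symm)
      have h5 : p' + 1 + j + (p' + 1 - (i + 1)) - (0 + j + (i + 1)) = 2 * (p' + 1 - (i + 1)) := by
        omega
      rw [h5, Nat.mod_eq_of_lt (by omega)] at h4
      omega

theorem res_one_eq (i : Fin 2 × Fin p) : res p i 1 = res p i 2 := by
  unfold res
  split_ifs <;> rfl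

theorem res_cases (i : Fin 2 × Fin p) :
    ((i.2 : ℕ) = 0 ∧ (i.1 : ℕ) = 0 ∧ res p i 0 = 0 ∧ res p i 1 = 0 ∧ res p i 2 = 0) ∨
    ((i.2 : ℕ) = 0 ∧ (i.1 : ℕ) = 1 ∧ res p i 0 = 0 ∧ res p i 1 = p ∧ res p i 2 = p) ∨
    (1 ≤ (i.2 : ℕ) ∧ (i.1 : ℕ) = 0 ∧ res p i 0 = p - i.2 ∧ res p i 1 = p + i.2 ∧
      res p i 2 = p + i.2) ∨
    (1 ≤ (i.2 : ℕ) ∧ (i.1 : ℕ) = 1 ∧ res p i 0 = 0 ∧ res p i 1 = p + i.2 ∧
      res p i 2 = p + i.2) := by
  obtain ⟨u, j⟩ := i
  by_cases hj : (j : ℕ) = 0
  · fin_cases u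
    · left
      refine ⟨hj, rfl, ?_, ?_, ?_⟩ <;> simp [res, hj]
    · right; left
      refine ⟨hj, rfl, ?_, ?_, ?_⟩ <;> simp [res, hj]
  · have hj' : 1 ≤ (j : ℕ) := by omega
    fin_cases u
    · right; right; left
      refine ⟨hj', rfl, ?_, ?_, ?_⟩ <;> simp [res, hj]
    · right; right; right
      refine ⟨hj', rfl, ?_, ?_, ?_⟩ <;> simp [res, hj]

theorem ext_mon_zero {β : Fin 3 → ℕ} {n a b : ℕ}
    (h : ¬ (n % p = β 0 ∧ a % (2 * p) = β 1 ∧ b % (2 * p) = β 2)) :
    ext (dd p) β (X 0 ^ n * X 1 ^ a * X 2 ^ b : (MvPolynomial (Fin 3) k)) = 0 := by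
  rw [ext_mon, if_neg h]

theorem ext_mon_one {β : Fin 3 → ℕ} {n a b : ℕ} (hn : n = β 0) (ha : a = β 1) (hb : b = β 2)
    (hn' : n < p) (ha' : a < 2 * p) (hb' : b < 2 * p) :
    ext (dd p) β (X 0 ^ n * X 1 ^ a * X 2 ^ b : (MvPolynomial (Fin 3) k)) = 1 := by
  rw [ext_mon, if_pos, Nat.div_eq_of_lt hn', Nat.div_eq_of_lt ha', Nat.div_eq_of_lt hb']
  · simp
  · rw [Nat.mod_eq_of_lt hn', Nat.mod_eq_of_lt ha', Nat.mod_eq_of_lt hb']
    exact ⟨hn, ha, hb⟩

/-- duality -/
theorem ext_bas (hp : 0 < p) (i i' : Fin 2 × Fin p) :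
    ext (dd p) (res p i) (bas p i' : (MvPolynomial (Fin 3) k)) = if i = i' then 1 else 0 := by
  have hres := res_one_eq i
  obtain ⟨u', j'⟩ := i'
  have hj := i.2.2
  have hj' := j'.2
  have e1 : (i = (u', j')) ↔ ((i.1 : ℕ) = u' ∧ (i.2 : ℕ) = j') := by
    rw [Prod.ext_iff, Fin.ext_iff, Fin.ext_iff]
  simp only [e1]
  have m3 : p % (2 * p) = p := Nat.mod_eq_of_lt (by omega)
  have hi := res_cases i
  by_cases h' : (j' : ℕ) = 0
  · fin_cases u'
    · have e2 : (bas p ((0 : Fin 2), j') : (MvPolynomial (Fin 3) k)) = X 0 ^ 0 * X 1 ^ 0 * X 2 ^ 0 := by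
        simp [bas, h']
      simp only [Fin.zero_eta]
      rw [e2]
      split_ifs with hc
      · exact ext_mon_one (by omega) (by omega) (by omega) (by omega) (by omega) (by omega)
      · refine ext_mon_zero ?_
        rw [Nat.zero_mod, Nat.zero_mod]
        omega
    · have e2 : (bas p ((1 : Fin 2), j') : (MvPolynomial (Fin 3) k)) = X 0 ^ 0 * X 1 ^ p * X 2 ^ p := by
        simp [bas, h', mul_pow]
      simp only [Fin.mk_one]
      rw [e2]
      split_ifs with hc
      · exact ext_mon_one (by omega) (by omega) (by omega) (by omega) (by omega) (by omega)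
      · refine ext_mon_zero ?_
        rw [Nat.zero_mod, m3]
        omega
  · have m4 : (p - j') % p = p - j' := Nat.mod_eq_of_lt (by omega)
    have m5 : (p + j') % (2 * p) = p + j' := Nat.mod_eq_of_lt (by omega)
    have m6 : (j' : ℕ) % (2 * p) = j' := Nat.mod_eq_of_lt (by omega)
    have m7 : (p + j' + p) % (2 * p) = j' := by
      have : p + j' + p = j' + 2 * p := by ring
      rw [this, Nat.add_mod_right, m6]
    fin_cases u'
    · have e2 : (bas p ((0 : Fin 2), j') : (MvPolynomial (Fin 3) k)) = X 1 ^ p * X 2 ^ 0 * G p j' := by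
        simp [bas, h']
      simp only [Fin.zero_eta]
      rw [e2, ext_mul_G hres hp hj'.le (Or.inl ⟨rfl, rfl⟩)]
      have z2 : ext (dd p) (res p i) (X 0 ^ 0 * X 1 ^ (p + j' + p) * X 2 ^ (0 + (j' : ℕ)) : (MvPolynomial (Fin 3) k))
          = 0 := by
        refine ext_mon_zero ?_
        rw [Nat.zero_mod, m7, zero_add, m6]
        omega
      rw [z2, add_zero]
      split_ifs with hc
      · exact ext_mon_one (by omega) (by omega) (by omega) (by omega) (by omega) (by omega)
      · refine ext_mon_zero ?_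
        have : 0 + (j' : ℕ) + p = p + j' := by omega
        rw [m4, this, m5]
        omega
    · have e2 : (bas p ((1 : Fin 2), j') : (MvPolynomial (Fin 3) k)) = X 1 ^ 0 * X 2 ^ p * G p j' := by
        simp [bas, h']
      simp only [Fin.mk_one]
      rw [e2, ext_mul_G hres hp hj'.le (Or.inr ⟨rfl, rfl⟩)]
      have z2 : ext (dd p) (res p i) (X 0 ^ (p - j') * X 1 ^ (0 + (j' : ℕ)) *
          X 2 ^ (p + j' + p) : (MvPolynomial (Fin 3) k)) = 0 := by
        refine ext_mon_zero ?_
        rw [m7, zero_add, m6]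
        omega
      rw [z2, zero_add]
      split_ifs with hc
      · exact ext_mon_one (by omega) (by omega) (by omega) (by omega) (by omega) (by omega)
      · refine ext_mon_zero ?_
        have : 0 + (j' : ℕ) + p = p + j' := by omega
        rw [Nat.zero_mod, this, m5]
        omega

end AllP

end MP85340c
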