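import Pool.Agent.Lib.MP_85340c_ag.AllP.Ring

/-!
# The ring of the example, in all characteristics: the ring structure
-/

namespace MP85340c

namespace AllP

open MvPolynomial Finset

variable {k : Type*} [Field k]

variable {p : ℕ}

theorem iota_X0 : iota p (X 0 : (MvPolynomial (Fin 3) k)) = X 0 ^ p := by
  simp [iota, dd]

theorem iota_X1 : iota p (X 1 : (MvPolynomial (Fin 3) k)) = X 1 ^ p * X 1 ^ p := by
  simp only [iota, aeval_X, dd, Matrix.cons_val_one, Matrix.cons_val_zero]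
  ring

theorem iota_X2 : iota p (X 2 : (MvPolynomial (Fin 3) k)) = X 2 ^ p * X 2 ^ p := by
  simp only [iota, aeval_X, dd, Matrix.cons_val]
  ring

variable (p) in
/-- the elements of the ring -/
def Mem (v : (MvPolynomial (Fin 3) k)) : Prop := ∃ b : Fin 2 × Fin p → (MvPolynomial (Fin 3) k), v = ∑ i, iota p (b i) * bas p i

theorem Mem.zero : Mem p (0 : (MvPolynomial (Fin 3) k)) := ⟨0, by simp⟩

theorem Mem.add {v w : (MvPolynomial (Fin 3) k)} (hv : Mem p v) (hw : Mem p w) : Mem p (v + w) := by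
  obtain ⟨b, rfl⟩ := hv
  obtain ⟨b', rfl⟩ := hw
  refine ⟨b + b', ?_⟩
  rw [← Finset.sum_add_distrib]
  refine Finset.sum_congr rfl fun i _ => ?_
  rw [Pi.add_apply, map_add, add_mul]

theorem Mem.iota_mul {v : (MvPolynomial (Fin 3) k)} (b : (MvPolynomial (Fin 3) k)) (hv : Mem p v) : Mem p (iota p b * v) := by
  obtain ⟨b', rfl⟩ := hv
  refine ⟨fun i => b * b' i, ?_⟩
  rw [Finset.mul_sum]
  refine Finset.sum_congr rfl fun i _ => ?_
  rw [map_mul, mul_assoc]

theorem Mem.sum {ι : Type*} {s : Finset ι} {f : ι → (MvPolynomial (Fin 3) k)} (h : ∀ i ∈ s, Mem p (f i)) :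
    Mem p (∑ i ∈ s, f i) :=
  Finset.sum_induction f (Mem p) (fun _ _ => Mem.add) Mem.zero h

theorem mem_bas (i : Fin 2 × Fin p) : Mem p (bas p i : (MvPolynomial (Fin 3) k)) := by
  refine ⟨Pi.single i 1, ?_⟩
  rw [Finset.sum_eq_single i]
  · simp
  · intro j _ hj
    rw [Pi.single_eq_of_ne hj, map_zero, zero_mul]
  · simp

theorem Mem.t_mul {v : (MvPolynomial (Fin 3) k)} (hv : Mem p v) : Mem p (X 0 ^ p * v) := by
  rw [← iota_X0]; exact hv.iota_mul _

theorem Mem.xx_mul {v : (MvPolynomial (Fin 3) k)} (hv : Mem p v) : Mem p (X 1 ^ p * X 1 ^ p * v) := by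
  rw [← iota_X1]; exact hv.iota_mul _

theorem Mem.yy_mul {v : (MvPolynomial (Fin 3) k)} (hv : Mem p v) : Mem p (X 2 ^ p * X 2 ^ p * v) := by
  rw [← iota_X2]; exact hv.iota_mul _

theorem mem_one (hp : 0 < p) : Mem p (1 : (MvPolynomial (Fin 3) k)) := by
  have := mem_bas (k := k) (p := p) (0, ⟨0, hp⟩)
  simpa [bas] using this

theorem mem_xy (hp : 0 < p) : Mem p (X 1 ^ p * X 2 ^ p : (MvPolynomial (Fin 3) k)) := by
  have := mem_bas (k := k) (p := p) (1, ⟨0, hp⟩)
  simpa [bas, mul_pow] using this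

theorem G_zero_eq [Fact p.Prime] [CharP k p] : (G p 0 : (MvPolynomial (Fin 3) k)) = X 1 ^ p + X 0 ^ p * X 2 ^ p := by
  rw [G, pow_zero, one_mul, Nat.sub_zero, add_pow_char, mul_pow]

theorem G_p_eq [Fact p.Prime] [CharP k p] :
    (G p p : (MvPolynomial (Fin 3) k)) = X 1 ^ p * X 2 ^ p * (X 1 ^ p + X 2 ^ p) := by
  rw [G, Nat.sub_self, pow_zero, mul_one, mul_pow, mul_pow, add_pow_char]

theorem mem_x_G [hpp : Fact p.Prime] [CharP k p] {j : ℕ} (hj : j ≤ p) :
    Mem p (X 1 ^ p * G p j : (MvPolynomial (Fin 3) k)) := by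
  have hp := hpp.out.pos
  rcases Nat.eq_zero_or_pos j with rfl | h0
  · rw [G_zero_eq]
    have h1 := (mem_one (k := k) hp).xx_mul.add (mem_xy (k := k) hp).t_mul
    convert h1 using 1
    ring
  · rcases Nat.lt_or_eq_of_le hj with h | rfl
    · have := mem_bas (k := k) (p := p) (0, ⟨j, h⟩)
      simpa [bas, h0.ne'] using this
    · rw [G_p_eq]
      have h1 := (mem_xy (k := k) hp).xx_mul.add (mem_one (k := k) hp).yy_mul.xx_mul
      convert h1 using 1
      ring

theorem mem_y_G [hpp : Fact p.Prime] [CharP k p] {j : ℕ} (hj : j ≤ p) :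
    Mem p (X 2 ^ p * G p j : (MvPolynomial (Fin 3) k)) := by
  have hp := hpp.out.pos
  rcases Nat.eq_zero_or_pos j with rfl | h0
  · rw [G_zero_eq]
    have h1 := (mem_xy (k := k) hp).add (mem_one (k := k) hp).yy_mul.t_mul
    convert h1 using 1
    ring
  · rcases Nat.lt_or_eq_of_le hj with h | rfl
    · have := mem_bas (k := k) (p := p) (1, ⟨j, h⟩)
      simpa [bas, h0.ne'] using this
    · rw [G_p_eq]
      have h1 := (mem_xy (k := k) hp).yy_mul.add (mem_one (k := k) hp).yy_mul.xx_mul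
      convert h1 using 1
      ring

theorem G_mul_G_le [hpp : Fact p.Prime] [CharP k p] {i j : ℕ} (h : i + j ≤ p) :
    (G p i * G p j : (MvPolynomial (Fin 3) k)) = (X 1 ^ p + X 0 ^ p * X 2 ^ p) * G p (i + j) := by
  have h1 : (X 1 ^ p + X 0 ^ p * X 2 ^ p : (MvPolynomial (Fin 3) k)) = (X 1 + X 0 * X 2) ^ p := by
    rw [add_pow_char, mul_pow]
  have e : (p - i) + (p - j) = p + (p - (i + j)) := by omega
  rw [h1, G, G, G, mul_mul_mul_comm, ← pow_add, ← pow_add, e, pow_add]
  ring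

theorem G_mul_G_gt [hpp : Fact p.Prime] [CharP k p] {i j : ℕ} (hi : i ≤ p) (hj : j ≤ p)
    (h : p ≤ i + j) : (G p i * G p j : (MvPolynomial (Fin 3) k))
      = X 1 ^ p * X 2 ^ p * (X 1 ^ p + X 2 ^ p) * G p (i + j - p) := by
  have h1 : (X 1 ^ p * X 2 ^ p * (X 1 ^ p + X 2 ^ p) : (MvPolynomial (Fin 3) k)) = (X 1 * X 2 * (X 1 + X 2)) ^ p := by
    rw [mul_pow, mul_pow, add_pow_char]
  have e : (p - i) + (p - j) = p - (i + j - p) := by omega
  have e2 : i + j = p + (i + j - p) := by omega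
  rw [h1, G, G, G, mul_mul_mul_comm, ← pow_add, ← pow_add, e]
  nth_rewrite 1 [e2]
  rw [pow_add]
  ring

/-- products of three `p`-th powers of variables and `G` -/
theorem mem_GG [hpp : Fact p.Prime] [CharP k p] {i j : ℕ} (hi : i ≤ p) (hj : j ≤ p) :
    Mem p (X 1 ^ p * G p i * (X 1 ^ p * G p j) : (MvPolynomial (Fin 3) k)) ∧
    Mem p (X 1 ^ p * G p i * (X 2 ^ p * G p j) : (MvPolynomial (Fin 3) k)) ∧
    Mem p (X 2 ^ p * G p i * (X 2 ^ p * G p j) : (MvPolynomial (Fin 3) k)) := by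
  rcases le_total (i + j) p with h | h
  · have hG := G_mul_G_le (k := k) h
    have hx := mem_x_G (k := k) h
    have hy := mem_y_G (k := k) h
    refine ⟨?_, ?_, ?_⟩
    · have : (X 1 ^ p * G p i * (X 1 ^ p * G p j) : (MvPolynomial (Fin 3) k)) = X 1 ^ p * X 1 ^ p *
          (X 1 ^ p * G p (i + j)) + X 0 ^ p * (X 1 ^ p * X 1 ^ p * (X 2 ^ p * G p (i + j))) := by
        linear_combination (X 1 ^ p * X 1 ^ p : (MvPolynomial (Fin 3) k)) * hG
      rw [this]
      exact hx.xx_mul.add hy.xx_mul.t_mul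
    · have : (X 1 ^ p * G p i * (X 2 ^ p * G p j) : (MvPolynomial (Fin 3) k)) = X 1 ^ p * X 1 ^ p *
          (X 2 ^ p * G p (i + j)) + X 0 ^ p * (X 2 ^ p * X 2 ^ p * (X 1 ^ p * G p (i + j))) := by
        linear_combination (X 1 ^ p * X 2 ^ p : (MvPolynomial (Fin 3) k)) * hG
      rw [this]
      exact hy.xx_mul.add hx.yy_mul.t_mul
    · have : (X 2 ^ p * G p i * (X 2 ^ p * G p j) : (MvPolynomial (Fin 3) k)) = X 2 ^ p * X 2 ^ p *
          (X 1 ^ p * G p (i + j)) + X 0 ^ p * (X 2 ^ p * X 2 ^ p * (X 2 ^ p * G p (i + j))) := by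
        linear_combination (X 2 ^ p * X 2 ^ p : (MvPolynomial (Fin 3) k)) * hG
      rw [this]
      exact hx.yy_mul.add hy.yy_mul.t_mul
  · have hG := G_mul_G_gt (k := k) hi hj h
    have hx := mem_x_G (k := k) (p := p) (j := i + j - p) (by omega)
    have hy := mem_y_G (k := k) (p := p) (j := i + j - p) (by omega)
    refine ⟨?_, ?_, ?_⟩
    · have : (X 1 ^ p * G p i * (X 1 ^ p * G p j) : (MvPolynomial (Fin 3) k)) =
          X 1 ^ p * X 1 ^ p * (X 1 ^ p * X 1 ^ p * (X 2 ^ p * G p (i + j - p))) +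
          X 1 ^ p * X 1 ^ p * (X 2 ^ p * X 2 ^ p * (X 1 ^ p * G p (i + j - p))) := by
        linear_combination (X 1 ^ p * X 1 ^ p : (MvPolynomial (Fin 3) k)) * hG
      rw [this]
      exact hy.xx_mul.xx_mul.add hx.yy_mul.xx_mul
    · have : (X 1 ^ p * G p i * (X 2 ^ p * G p j) : (MvPolynomial (Fin 3) k)) =
          X 1 ^ p * X 1 ^ p * (X 2 ^ p * X 2 ^ p * (X 1 ^ p * G p (i + j - p))) +
          X 1 ^ p * X 1 ^ p * (X 2 ^ p * X 2 ^ p * (X 2 ^ p * G p (i + j - p))) := by
        linear_combination (X 1 ^ p * X 2 ^ p : (MvPolynomial (Fin 3) k)) * hG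
      rw [this]
      exact hx.yy_mul.xx_mul.add hy.yy_mul.xx_mul
    · have : (X 2 ^ p * G p i * (X 2 ^ p * G p j) : (MvPolynomial (Fin 3) k)) =
          X 1 ^ p * X 1 ^ p * (X 2 ^ p * X 2 ^ p * (X 2 ^ p * G p (i + j - p))) +
          X 2 ^ p * X 2 ^ p * (X 2 ^ p * X 2 ^ p * (X 1 ^ p * G p (i + j - p))) := by
        linear_combination (X 2 ^ p * X 2 ^ p : (MvPolynomial (Fin 3) k)) * hG
      rw [this]
      exact hy.yy_mul.xx_mul.add hx.yy_mul.yy_mul

theorem bas_cases (i : Fin 2 × Fin p) :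
    (i = (0, ⟨0, i.2.pos⟩) ∧ (bas p i : (MvPolynomial (Fin 3) k)) = 1) ∨
    (i = (1, ⟨0, i.2.pos⟩) ∧ (bas p i : (MvPolynomial (Fin 3) k)) = X 1 ^ p * X 2 ^ p) ∨
    (∃ (j : ℕ) (hj : j < p), 1 ≤ j ∧ i = (0, ⟨j, hj⟩) ∧ (bas p i : (MvPolynomial (Fin 3) k)) = X 1 ^ p * G p j) ∨
    (∃ (j : ℕ) (hj : j < p), 1 ≤ j ∧ i = (1, ⟨j, hj⟩) ∧ (bas p i : (MvPolynomial (Fin 3) k)) = X 2 ^ p * G p j) := by
  obtain ⟨u, j, hj⟩ := i
  by_cases h : j = 0
  · subst h
    fin_cases u
    · left
      exact ⟨rfl, by simp [bas]⟩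
    · right; left
      exact ⟨rfl, by simp [bas, mul_pow]⟩
  · have h' : 1 ≤ j := by omega
    fin_cases u
    · right; right; left
      exact ⟨j, hj, h', rfl, by simp [bas, h]⟩
    · right; right; right
      exact ⟨j, hj, h', rfl, by simp [bas, h]⟩

theorem mem_bas_mul_bas [hpp : Fact p.Prime] [CharP k p] (i j : Fin 2 × Fin p) :
    Mem p (bas p i * bas p j : (MvPolynomial (Fin 3) k)) := by
  have hp := hpp.out.pos
  have hxy := mem_xy (k := k) hp
  have h1 := mem_one (k := k) hp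
  -- products with `(xy) ^ p`
  have hxyj : ∀ j : Fin 2 × Fin p, Mem p (X 1 ^ p * X 2 ^ p * bas p j : (MvPolynomial (Fin 3) k)) := by
    intro j
    rcases bas_cases (k := k) j with ⟨-, h⟩ | ⟨-, h⟩ | ⟨m, hm, -, -, h⟩ | ⟨m, hm, -, -, h⟩
    · rw [h, mul_one]; exact hxy
    · rw [h]
      convert h1.yy_mul.xx_mul using 1
      ring
    · rw [h]
      convert (mem_y_G (k := k) hm.le).xx_mul using 1
      ring
    · rw [h]
      convert (mem_x_G (k := k) hm.le).yy_mul using 1
      ring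
  rcases bas_cases (k := k) i with ⟨-, h⟩ | ⟨-, h⟩ | ⟨m, hm, -, -, h⟩ | ⟨m, hm, -, -, h⟩
  · rw [h, one_mul]; exact mem_bas j
  · rw [h]; exact hxyj j
  · rcases bas_cases (k := k) j with ⟨-, h'⟩ | ⟨-, h'⟩ | ⟨m', hm', -, -, h'⟩ | ⟨m', hm', -, -, h'⟩
    · rw [h', mul_one]; exact mem_bas i
    · rw [h', mul_comm]; exact hxyj i
    · rw [h, h']; exact (mem_GG hm.le hm'.le).1
    · rw [h, h']; exact (mem_GG hm.le hm'.le).2.1
  · rcases bas_cases (k := k) j with ⟨-, h'⟩ | ⟨-, h'⟩ | ⟨m', hm', -, -, h'⟩ | ⟨m', hm', -, -, h'⟩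
    · rw [h', mul_one]; exact mem_bas i
    · rw [h', mul_comm]; exact hxyj i
    · rw [h, h', mul_comm]; exact (mem_GG hm'.le hm.le).2.1
    · rw [h, h']; exact (mem_GG hm.le hm'.le).2.2

theorem Mem.mul [hpp : Fact p.Prime] [CharP k p] {v w : (MvPolynomial (Fin 3) k)} (hv : Mem p v) (hw : Mem p w) :
    Mem p (v * w) := by
  obtain ⟨b, rfl⟩ := hv
  obtain ⟨b', rfl⟩ := hw
  rw [Finset.sum_mul_sum]
  refine Mem.sum fun i _ => Mem.sum fun j _ => ?_
  have : iota p (b i) * bas p i * (iota p (b' j) * bas p j)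
      = iota p (b i) * (iota p (b' j) * (bas p i * bas p j)) := by ring
  rw [this]
  exact ((mem_bas_mul_bas i j).iota_mul _).iota_mul _

variable (k p)

/-- The ring of the example: a finite free extension of a polynomial ring in three variables,
and a subring of a polynomial ring in three variables. -/
def Rp [hpp : Fact p.Prime] [CharP k p] : Subalgebra k (MvPolynomial (Fin 3) k) where
  carrier := {v | Mem p v}
  mul_mem' := Mem.mul
  add_mem' := Mem.add
  algebraMap_mem' r := by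
    have h := (mem_one (k := k) hpp.out.pos).iota_mul (p := p) (C r)
    rwa [mul_one, ← algebraMap_eq, AlgHom.commutes] at h

variable [hpp : Fact p.Prime] [CharP k p]

theorem mem_Rp {v : (MvPolynomial (Fin 3) k)} : v ∈ Rp k p ↔ Mem p v := Iff.rfl

theorem iota_mem (b : (MvPolynomial (Fin 3) k)) : iota p b ∈ Rp k p := by
  have h := (mem_one (k := k) hpp.out.pos).iota_mul (p := p) b
  rwa [mul_one] at h

/-- The structure map from the polynomial ring. -/
noncomputable def toRp : (MvPolynomial (Fin 3) k) →ₐ[k] Rp k p := (iota p).codRestrict (Rp k p) (iota_mem k p)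

noncomputable instance instAlgebra : Algebra (MvPolynomial (Fin 3) k) (Rp k p) :=
  (toRp k p : (MvPolynomial (Fin 3) k) →+* Rp k p).toAlgebra

theorem algebraMap_Rp (b : (MvPolynomial (Fin 3) k)) : algebraMap (MvPolynomial (Fin 3) k) (Rp k p) b = toRp k p b := rfl

@[simp] theorem coe_algebraMap_Rp (b : (MvPolynomial (Fin 3) k)) :
    (algebraMap (MvPolynomial (Fin 3) k) (Rp k p) b : (MvPolynomial (Fin 3) k)) = iota p b := rfl

theorem coe_smul_Rp (b : (MvPolynomial (Fin 3) k)) (v : Rp k p) : ((b • v : Rp k p) : (MvPolynomial (Fin 3) k)) = iota p b * v := by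
  rw [Algebra.smul_def, MulMemClass.coe_mul, coe_algebraMap_Rp]

/-- The basis of the ring. -/
noncomputable def basR (i : Fin 2 × Fin p) : Rp k p := ⟨bas p i, mem_bas i⟩

theorem coe_basR (i : Fin 2 × Fin p) : (basR k p i : (MvPolynomial (Fin 3) k)) = bas p i := rfl

theorem ext_sum_bas (b : Fin 2 × Fin p → (MvPolynomial (Fin 3) k)) (i : Fin 2 × Fin p) :
    ext (dd p) (res p i) (∑ j, iota p (b j) * bas p j) = b i := by
  rw [map_sum, Finset.sum_eq_single i]
  · rw [ext_iota_mul hpp.out.pos, ext_bas hpp.out.pos, if_pos rfl, mul_one]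
  · intro j _ hj
    rw [ext_iota_mul hpp.out.pos, ext_bas hpp.out.pos, if_neg hj.symm, mul_zero]
  · simp

/-- The coordinates of an element with respect to the basis. -/
noncomputable def crd (i : Fin 2 × Fin p) (v : Rp k p) : (MvPolynomial (Fin 3) k) := ext (dd p) (res p i) (v : (MvPolynomial (Fin 3) k))

theorem coe_eq_sum (v : Rp k p) : (v : (MvPolynomial (Fin 3) k)) = ∑ i, iota p (crd k p i v) * bas p i := by
  obtain ⟨b, hb⟩ := v.2
  have : ∀ i, crd k p i v = b i := by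
    intro i
    rw [crd, hb, ext_sum_bas]
  simp only [this]
  exact hb

theorem eq_sum (v : Rp k p) : v = ∑ i, crd k p i v • basR k p i := by
  apply Subtype.ext
  rw [coe_eq_sum k p v, AddSubmonoidClass.coe_finsetSum]
  refine Finset.sum_congr rfl fun i _ => ?_
  rw [coe_smul_Rp, coe_basR]

theorem crd_sum (b : Fin 2 × Fin p → (MvPolynomial (Fin 3) k)) (i : Fin 2 × Fin p) :
    crd k p i (∑ j, b j • basR k p j) = b i := by
  rw [crd, AddSubmonoidClass.coe_finsetSum]
  have : ∀ j, ((b j • basR k p j : Rp k p) : (MvPolynomial (Fin 3) k)) = iota p (b j) * bas p j := fun j => by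
    rw [coe_smul_Rp, coe_basR]
  simp only [this]
  exact ext_sum_bas k p b i

/-- The basis. -/
noncomputable def basis : Module.Basis (Fin 2 × Fin p) (MvPolynomial (Fin 3) k) (Rp k p) :=
  Module.Basis.ofEquivFun
    { toFun := fun v i => crd k p i v
      invFun := fun b => ∑ j, b j • basR k p j
      left_inv := fun v => (eq_sum k p v).symm
      right_inv := fun b => funext fun i => crd_sum k p b i
      map_add' := fun v w => by
        funext i
        simp only [crd, Pi.add_apply]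
        rw [AddMemClass.coe_add, map_add]
      map_smul' := fun b v => by
        funext i
        simp only [crd, Pi.smul_apply, smul_eq_mul, RingHom.id_apply]
        rw [coe_smul_Rp, ext_iota_mul hpp.out.pos] }

instance : Module.Free (MvPolynomial (Fin 3) k) (Rp k p) := Module.Free.of_basis (basis k p)

instance : Module.Finite (MvPolynomial (Fin 3) k) (Rp k p) := Module.Finite.of_basis (basis k p)

/-- ideals extended from the polynomial ring are contracted from `T` -/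
theorem comap_map_le (Q : Ideal (MvPolynomial (Fin 3) k)) :
    ((Q.map (algebraMap _ (Rp k p))).map (Rp k p).val.toRingHom).comap (Rp k p).val.toRingHom
      ≤ Q.map (algebraMap _ (Rp k p)) := by
  intro v hv
  rw [Ideal.mem_comap, Ideal.map_map] at hv
  have key : ∀ w : (MvPolynomial (Fin 3) k), w ∈ Q.map ((Rp k p).val.toRingHom.comp (algebraMap _ (Rp k p))) →
      ∀ β, ext (dd p) β w ∈ Q := by
    intro w hw β
    have : ∀ r : (MvPolynomial (Fin 3) k), ext (dd p) β (r * w) ∈ Q := by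
      refine Submodule.span_induction (p := fun w _ => ∀ r : (MvPolynomial (Fin 3) k), ext (dd p) β (r * w) ∈ Q)
        ?_ ?_ ?_ ?_ hw
      · rintro _ ⟨q, hq, rfl⟩ r
        have e : ((Rp k p).val.toRingHom.comp (algebraMap _ (Rp k p))) q = iota p q := rfl
        rw [e, mul_comm, ext_iota_mul hpp.out.pos]
        exact Ideal.mul_mem_right _ _ hq
      · intro r
        rw [mul_zero, map_zero]
        exact Q.zero_mem
      · intro x y _ _ hx hy r
        rw [mul_add, map_add]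
        exact Q.add_mem (hx r) (hy r)
      · intro r x _ hx r'
        rw [smul_eq_mul, ← mul_assoc]
        exact hx _
    simpa using this 1
  rw [eq_sum k p v]
  refine Ideal.sum_mem _ fun i _ => ?_
  rw [Algebra.smul_def]
  exact Ideal.mul_mem_right _ _ (Ideal.mem_map_of_mem _ (key _ hv _))

theorem tc_Rp [PerfectRing k p] (Q : Ideal (MvPolynomial (Fin 3) k)) (P : Ideal (Rp k p))
    [P.IsPrime] (c w : Rp k p) (hc : c ≠ 0)
    (hw : ∃ N : ℕ, ∀ e, N ≤ e → ∃ s ∉ P,
      s * (c * w ^ p ^ e) ∈ bracketPow (Q.map (algebraMap _ (Rp k p))) (p ^ e)) :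
    ∃ s ∉ P, s * w ∈ Q.map (algebraMap _ (Rp k p)) :=
  exists_mul_mem p (Rp k p).val.toRingHom Subtype.val_injective _ (comap_map_le k p Q) P hc hw

end AllP

end MP85340c
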