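import Pool.Agent.Lib.MP_85340c_ag.AllP.Hyper3
import Pool.Agent.Lib.MP_85340c_ag.AllP.Abstract

/-!
# The hyperplane sections are not F-rational
-/

namespace MP85340c

namespace AllP

open MvPolynomial Finset

variable (k : Type*) [Field k]

variable (p : ℕ) [hpp : Fact p.Prime] [CharP k p]

instance : IsNoetherianRing (Rp k p) := IsNoetherianRing.of_finite (MvPolynomial (Fin 3) k) (Rp k p)

instance : CharP (Rp k p) p :=
  charP_of_injective_algebraMap (algebraMap k (Rp k p)).injective p

theorem EV_surjective (ε : k) : Function.Surjective (EV k p ε) := by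
  intro r
  refine ⟨algebraMap k _ r, ?_⟩
  rw [EV_apply, coe_algebraMap_k, ← algebraMap_eq, AlgHom.commutes]
  rfl

theorem height_ker_EV (ε : k) : 3 ≤ (RingHom.ker (EV k p ε)).height := by
  have hp := hpp.out.pos
  let f1 : Rp k p →+* MvPolynomial (Fin 3) k :=
    (aeval ![X 0, 0, X 2] : (MvPolynomial (Fin 3) k) →ₐ[k] (MvPolynomial (Fin 3) k)).toRingHom.comp (Rp k p).val.toRingHom
  let f2 : Rp k p →+* Polynomial k := (red k).toRingHom.comp (Rp k p).val.toRingHom
  have h1 : (⊥ : Ideal (Rp k p)) < RingHom.ker f1 := by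
    rw [bot_lt_iff_ne_bot]
    intro h
    have : aR k p ∈ RingHom.ker f1 := by
      rw [RingHom.mem_ker]
      change aeval ![X 0, 0, X 2] ((aR k p : Rp k p) : (MvPolynomial (Fin 3) k)) = 0
      rw [coe_aR]
      simp [hp.ne']
    rw [h, Ideal.mem_bot] at this
    have h2 := congrArg (fun v : Rp k p => (v : (MvPolynomial (Fin 3) k))) this
    simp only [coe_aR, ZeroMemClass.coe_zero] at h2
    have h3 : (X 1 : (MvPolynomial (Fin 3) k)) ≠ 0 := X_ne_zero 1
    exact (mul_ne_zero (pow_ne_zero p h3) (pow_ne_zero p h3)) h2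
  have h2 : RingHom.ker f1 < RingHom.ker f2 := by
    refine lt_of_le_of_ne ?_ ?_
    · intro v hv
      rw [RingHom.mem_ker] at hv ⊢
      change red k (v : (MvPolynomial (Fin 3) k)) = 0
      change aeval ![X 0, 0, X 2] (v : (MvPolynomial (Fin 3) k)) = 0 at hv
      have : (red k).comp (aeval ![X 0, 0, X 2] : (MvPolynomial (Fin 3) k) →ₐ[k] (MvPolynomial (Fin 3) k)) = red k := by
        apply MvPolynomial.algHom_ext
        intro i
        fin_cases i <;> simp [red]
      rw [← this, AlgHom.comp_apply, hv, map_zero]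
    · intro h
      have h3 : cR k p ∈ RingHom.ker f2 := by
        rw [RingHom.mem_ker]
        change red k ((cR k p : Rp k p) : (MvPolynomial (Fin 3) k)) = 0
        rw [coe_cR]
        simp [hp.ne', red]
      rw [← h, RingHom.mem_ker] at h3
      change aeval ![X 0, 0, X 2] ((cR k p : Rp k p) : (MvPolynomial (Fin 3) k)) = 0 at h3
      rw [coe_cR] at h3
      have h4 : (X 2 : (MvPolynomial (Fin 3) k)) ≠ 0 := X_ne_zero 2
      simp only [map_mul, map_pow, aeval_X, Matrix.cons_val] at h3
      exact (mul_ne_zero (pow_ne_zero p h4) (pow_ne_zero p h4)) h3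
  have h3 : RingHom.ker f2 < RingHom.ker (EV k p ε) := by
    refine lt_of_le_of_ne ?_ ?_
    · intro v hv
      rw [RingHom.mem_ker] at hv ⊢
      rw [EV_apply]
      change red k (v : (MvPolynomial (Fin 3) k)) = 0 at hv
      have : ((Polynomial.aeval ε : Polynomial k →ₐ[k] k)).comp (red k)
          = (aeval ![ε, 0, 0] : (MvPolynomial (Fin 3) k) →ₐ[k] k) := by
        apply MvPolynomial.algHom_ext
        intro i
        fin_cases i <;> simp [red]
      rw [← this, AlgHom.comp_apply, hv, map_zero]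
    · intro h
      have h3 : tR k p - algebraMap k _ (ε ^ p) ∈ RingHom.ker (EV k p ε) := by
        rw [RingHom.mem_ker, EV_apply, AddSubgroupClass.coe_sub, coe_tR, coe_algebraMap_k]
        simp
      rw [← h, RingHom.mem_ker] at h3
      change red k ((tR k p - algebraMap k _ (ε ^ p) : Rp k p) : (MvPolynomial (Fin 3) k)) = 0 at h3
      rw [AddSubgroupClass.coe_sub, coe_tR, coe_algebraMap_k, map_sub, map_pow, red_X0] at h3
      have h4 : red k (C (ε ^ p)) = Polynomial.C (ε ^ p) := by simp [red]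
      rw [h4] at h3
      exact Polynomial.X_pow_sub_C_ne_zero hp _ h3
  have p1 : (RingHom.ker f1).IsPrime := RingHom.ker_isPrime f1
  have p2 : (RingHom.ker f2).IsPrime := RingHom.ker_isPrime f2
  have p3 : (RingHom.ker (EV k p ε)).IsPrime := RingHom.ker_isPrime _
  have e1 := Ideal.height_add_one_le_of_lt_of_isPrime h1
  have e2 := Ideal.height_add_one_le_of_lt_of_isPrime h2
  have e3 := Ideal.height_add_one_le_of_lt_of_isPrime h3
  have e4 : (1 : ℕ∞) ≤ (RingHom.ker f1).height := le_trans (by simp) e1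
  have e5 : (2 : ℕ∞) ≤ (RingHom.ker f2).height := by
    refine le_trans ?_ e2
    calc (2 : ℕ∞) = 1 + 1 := by norm_num
      _ ≤ _ := by gcongr
  refine le_trans ?_ e3
  calc (3 : ℕ∞) = 2 + 1 := by norm_num
    _ ≤ _ := by gcongr

theorem sub_mem_span (c0 : k) (b : MvPolynomial (Fin 3) k) :
    b - C ((red k b).eval c0) ∈ Ideal.span {X 0 - C c0, X 1, (X 2 : MvPolynomial (Fin 3) k)} := by
  have h0 : (X 0 - C c0 : (MvPolynomial (Fin 3) k)) ∈ Ideal.span {X 0 - C c0, X 1, (X 2 : (MvPolynomial (Fin 3) k))} :=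
    Ideal.subset_span (by simp)
  have h1 : (X 1 : (MvPolynomial (Fin 3) k)) ∈ Ideal.span {X 0 - C c0, X 1, (X 2 : (MvPolynomial (Fin 3) k))} :=
    Ideal.subset_span (by simp)
  have h2 : (X 2 : (MvPolynomial (Fin 3) k)) ∈ Ideal.span {X 0 - C c0, X 1, (X 2 : (MvPolynomial (Fin 3) k))} :=
    Ideal.subset_span (by simp)
  induction b using MvPolynomial.induction_on with
  | C a => simp [red]
  | add p q hp hq =>
    have : p + q - C (Polynomial.eval c0 (red k (p + q))) =
        (p - C (Polynomial.eval c0 (red k p))) + (q - C (Polynomial.eval c0 (red k q))) := by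
      rw [map_add, Polynomial.eval_add, C_add]; ring
    rw [this]
    exact add_mem hp hq
  | mul_X p i hp =>
    have hX : (X i - C (Polynomial.eval c0 (red k (X i))) : (MvPolynomial (Fin 3) k)) ∈
        Ideal.span {X 0 - C c0, X 1, (X 2 : (MvPolynomial (Fin 3) k))} := by
      fin_cases i
      · simp only [Fin.zero_eta, red_X0, Polynomial.eval_X]
        exact h0
      · simp only [Fin.mk_one, red_X1, Polynomial.eval_zero, C_0, sub_zero]
        exact h1
      · simp only [Fin.reduceFinMk, red_X2, Polynomial.eval_zero, C_0, sub_zero]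
        exact h2
    have : p * X i - C (Polynomial.eval c0 (red k (p * X i))) =
        (p - C (Polynomial.eval c0 (red k p))) * X i +
        C (Polynomial.eval c0 (red k p)) * (X i - C (Polynomial.eval c0 (red k (X i)))) := by
      rw [map_mul, Polynomial.eval_mul, C_mul]; ring
    rw [this]
    exact add_mem (Ideal.mul_mem_right _ _ hp) (Ideal.mul_mem_left _ _ hX)

theorem mem_radical {b0 b1 b2 b3 : k} {β : Fin 2 × Fin p → k} {ε : k}
    (hb1 : b1 ≠ 0) (hε : b0 + b1 * ε ^ p = 0) (r : Rp k p) (hr : EV k p ε r = 0) :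
    r ∈ (Ideal.span {aR k p, cR k p, hyp k p b0 b1 b2 b3 β}).radical := by
  set I := Ideal.span {aR k p, cR k p, hyp k p b0 b1 b2 b3 β} with hI
  have ha : aR k p ∈ I.radical := Ideal.le_radical (Ideal.subset_span (by simp))
  have hc : cR k p ∈ I.radical := Ideal.le_radical (Ideal.subset_span (by simp))
  have hh : hyp k p b0 b1 b2 b3 β ∈ I.radical := Ideal.le_radical (Ideal.subset_span (by simp))
  have hb : ∀ i, i ≠ i0 hpp.out.pos → basR k p i ∈ I.radical := by
    intro i hi
    obtain ⟨v₁, v₂, h⟩ := basR_mul_basR k p hi hi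
    refine ⟨2, ?_⟩
    rw [pow_two, h]
    exact add_mem (Ideal.mul_mem_right _ _ (Ideal.subset_span (by simp)))
      (Ideal.mul_mem_right _ _ (Ideal.subset_span (by simp)))
  have ht : tR k p - algebraMap k _ (ε ^ p) ∈ I.radical := by
    have h1 : algebraMap k (Rp k p) b1 * (tR k p - algebraMap k _ (ε ^ p)) ∈ I.radical := by
      have e : algebraMap k (Rp k p) b1 * (tR k p - algebraMap k _ (ε ^ p))
          = hyp k p b0 b1 b2 b3 β - (algebraMap k (Rp k p) b2 * aR k p +
            algebraMap k (Rp k p) b3 * cR k p +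
            ∑ i ∈ univ.erase (i0 hpp.out.pos), algebraMap k (Rp k p) (β i) * basR k p i) := by
        have e2 : algebraMap k (Rp k p) b0 = - (algebraMap k (Rp k p) b1 *
            algebraMap k (Rp k p) (ε ^ p)) := by
          rw [← map_mul, ← map_neg]
          congr 1
          linear_combination hε
        rw [hyp, e2]
        ring
      rw [e]
      refine sub_mem hh (add_mem (add_mem (Ideal.mul_mem_left _ _ ha)
        (Ideal.mul_mem_left _ _ hc)) (Ideal.sum_mem _ fun i hi => ?_))
      exact Ideal.mul_mem_left _ _ (hb i (Finset.ne_of_mem_erase hi))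
    have h2 : IsUnit (algebraMap k (Rp k p) b1) := (isUnit_iff_ne_zero.2 hb1).map _
    exact (Ideal.unit_mul_mem_iff_mem _ h2).1 h1
  rw [eq_sum k p r, ← Finset.add_sum_erase _ _ (Finset.mem_univ (i0 hpp.out.pos))]
  refine add_mem ?_ (Ideal.sum_mem _ fun i hi => ?_)
  · rw [basR_i0, Algebra.smul_def, mul_one]
    have h1 := sub_mem_span k (ε ^ p) (crd k p (i0 hpp.out.pos) r)
    have h2 : Polynomial.eval (ε ^ p) (red k (crd k p (i0 hpp.out.pos) r)) = 0 := by
      rw [← hr, EV_eq]
      rfl
    rw [h2, C_0, sub_zero] at h1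
    have h3 : Ideal.span {X 0 - C (ε ^ p), X 1, (X 2 : (MvPolynomial (Fin 3) k))} ≤
        I.radical.comap (algebraMap (MvPolynomial (Fin 3) k) (Rp k p)) := by
      rw [Ideal.span_le]
      rintro s (rfl | rfl | hs)
      · rw [SetLike.mem_coe, Ideal.mem_comap, map_sub, ← algebraMap_C]
        exact ht
      · exact ha
      · rw [Set.mem_singleton_iff] at hs
        rw [hs]
        exact hc
    exact h3 h1
  · rw [Algebra.smul_def]
    exact Ideal.mul_mem_left _ _ (hb i (Finset.ne_of_mem_erase hi))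

/-- **No hyperplane section with `b1 ≠ 0` is F-rational.** -/
theorem not_isFRational_hyp [IsAlgClosed k] (b0 b1 b2 b3 : k) (β : Fin 2 × Fin p → k)
    (hb1 : b1 ≠ 0) : ¬ IsFRational p (Rp k p ⧸ Ideal.span {hyp k p b0 b1 b2 b3 β}) := by
  obtain ⟨ε, hε'⟩ := IsAlgClosed.exists_pow_nat_eq (-b0 / b1) hpp.out.pos
  have hε : b0 + b1 * ε ^ p = 0 := by
    rw [hε']; field_simp; ring
  have hunit : IsUnit (algebraMap k (Rp k p) b1) := (isUnit_iff_ne_zero.2 hb1).map _
  have hcharR : CharP (Rp k p) p := inferInstance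
  have h0p := hpp.out.ne_zero
  refine not_isFRational_of p (EV k p ε) (EV_surjective k p ε) (A := aR k p) (C := cR k p)
    (w := wit k p ε) ?_ ?_ ?_ (height_ker_EV k p ε) (fun r hr => mem_radical k p hb1 hε r hr) ?_
    (fun s hs => EV_eq_zero_of_mul_wit k p hb1 hε hs)
  · rw [EV_eq, psi_hyp]
    simpa using hε
  · rw [EV_apply, coe_aR]; simp [h0p]
  · rw [EV_apply, coe_cR]; simp [h0p]
  · obtain ⟨z, v₁, v₂, h⟩ := key_identity k p b0 b1 b2 b3 β ε hε
    refine (Ideal.unit_mul_mem_iff_mem _ hunit).1 ?_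
    rw [h]
    refine add_mem (add_mem (Ideal.mul_mem_right _ _ (Ideal.subset_span (by simp)))
      (Ideal.mul_mem_right _ _ (Ideal.subset_span (by simp))))
      (Ideal.mul_mem_right _ _ (Ideal.subset_span (by simp)))

end AllP

end MP85340c
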